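import Mathlib

/-!
# Weak (1,∞)-Poincaré inequality and quasiconvexity of Euclidean domains: definitions
-/

namespace Pool.Agent.WPI

open MeasureTheory Set Metric
open scoped ENNReal

variable {n : ℕ}

/-- `g` is an upper gradient of `u` on `Ω`: `g` is Borel on `Ω`, with values in `[0,∞]`, and for
every rectifiable curve in `Ω`, given by its arc-length parametrisation `γ : [0, ℓ] → Ω`,
`|u(γ 0) - u(γ ℓ)| ≤ ∫₀^ℓ g(γ s) ds`. -/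
def IsUpperGradient (Ω : Set (EuclideanSpace ℝ (Fin n))) (g : EuclideanSpace ℝ (Fin n) → ℝ≥0∞)
    (u : EuclideanSpace ℝ (Fin n) → ℝ) : Prop :=
  Measurable (fun x : Ω => g x) ∧
    ∀ (ℓ : ℝ) (γ : ℝ → EuclideanSpace ℝ (Fin n)), 0 ≤ ℓ → HasUnitSpeedOn γ (Icc 0 ℓ) →
      (∀ s ∈ Icc 0 ℓ, γ s ∈ Ω) →
        ENNReal.ofReal |u (γ 0) - u (γ ℓ)| ≤ ∫⁻ s in Icc 0 ℓ, g (γ s)

/-- `Ω`, with the Euclidean distance and Lebesgue measure, supports a weak `(1,∞)`-Poincaré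
inequality: there are `C > 0`, `Λ ≥ 1` such that for all balls `B = B(x,r) ∩ Ω`, `x ∈ Ω`, `r > 0`,
all `u ∈ L¹_loc(Ω)` and all upper gradients `g` of `u`,
`⨍_B |u - u_B| ≤ C r ‖g‖_{L^∞(ΛB)}`. -/
def WeakPoincare (Ω : Set (EuclideanSpace ℝ (Fin n))) : Prop :=
  ∃ C Λ : ℝ, 0 < C ∧ 1 ≤ Λ ∧ ∀ x ∈ Ω, ∀ r : ℝ, 0 < r →
    ∀ (u : EuclideanSpace ℝ (Fin n) → ℝ) (g : EuclideanSpace ℝ (Fin n) → ℝ≥0∞),
      LocallyIntegrableOn u Ω volume → IsUpperGradient Ω g u →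
        ⨍⁻ y in ball x r ∩ Ω, ‖u y - ⨍ z in ball x r ∩ Ω, u z ∂volume‖ₑ ∂volume ≤
          ENNReal.ofReal (C * r) * essSup g (volume.restrict (ball x (Λ * r) ∩ Ω))

/-- `Ω` is quasiconvex: there is `K ≥ 1` such that any `x, y ∈ Ω` are joined by a curve in `Ω` of
length at most `K |x - y|`. -/
def Quasiconvex (Ω : Set (EuclideanSpace ℝ (Fin n))) : Prop :=
  ∃ K : ℝ, 1 ≤ K ∧ ∀ x ∈ Ω, ∀ y ∈ Ω, ∃ γ : ℝ → EuclideanSpace ℝ (Fin n),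
    ContinuousOn γ (Icc 0 1) ∧ (∀ t ∈ Icc (0 : ℝ) 1, γ t ∈ Ω) ∧ γ 0 = x ∧ γ 1 = y ∧
      eVariationOn γ (Icc 0 1) ≤ ENNReal.ofReal (K * dist x y)

end Pool.Agent.WPI
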