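import Mathlib
import Pool.Agent.Lib_helper93.WPI.Defs

/-!
# An upper gradient bounded a.e. gives a locally Lipschitz representative
-/

namespace Pool.Agent.WPI

open MeasureTheory Set Metric Filter Topology
open scoped ENNReal NNReal

variable {n : ℕ}

lemma unitSpeed_of_isometry {γ : ℝ → EuclideanSpace ℝ (Fin n)} {L : ℝ}
    (h : ∀ s t, dist (γ s) (γ t) = |s - t|) : HasUnitSpeedOn γ (Icc 0 L) := by
  intro x hx y hy
  rcases le_or_gt x y with hxy | hxy
  · have h1 : Icc 0 L ∩ Icc x y = Icc x y := by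
      apply inter_eq_right.2
      exact Icc_subset_Icc hx.1 hy.2
    rw [h1]
    apply le_antisymm
    · have hl : LipschitzOnWith 1 γ univ := by
        intro a _ b _
        rw [edist_dist, edist_dist, h, ENNReal.coe_one, one_mul, Real.dist_eq]
      have h2 := hl.comp_eVariationOn_le (f := γ) (g := (id : ℝ → ℝ)) (s := Icc x y)
        (mapsTo_univ _ _)
      rw [eVariationOn_id_Icc] at h2
      simpa using h2
    · have h2 := eVariationOn.edist_le γ (s := Icc x y) (x := x) (y := y)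
        ⟨le_rfl, hxy⟩ ⟨hxy, le_rfl⟩
      rw [edist_dist, h, abs_of_nonpos (by linarith : x - y ≤ 0)] at h2
      simpa using h2
  · have h1 : Icc 0 L ∩ Icc x y = ∅ := by
      rw [Icc_eq_empty (a := x) (b := y) (by linarith), inter_empty]
    rw [h1, eVariationOn.subsingleton _ subsingleton_empty, eq_comm]
    apply ENNReal.ofReal_of_nonpos
    push_cast
    linarith

/-- the inequality of an upper gradient along a segment on which it is a.e. bounded -/
lemma upperGradient_segment {Ω : Set (EuclideanSpace ℝ (Fin n))}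
    {g : EuclideanSpace ℝ (Fin n) → ℝ≥0∞} {u : EuclideanSpace ℝ (Fin n) → ℝ}
    (hg : IsUpperGradient Ω g u) {p q : EuclideanSpace ℝ (Fin n)} (hseg : segment ℝ p q ⊆ Ω)
    {G : ℝ≥0} (hG : ∀ᵐ s ∂(volume.restrict (Icc (0 : ℝ) 1)), g (p + s • (q - p)) ≤ G) :
    |u p - u q| ≤ G * dist p q := by
  rcases eq_or_ne p q with rfl | hpq
  · simp
  set L : ℝ := dist p q with hL
  have hL0 : 0 < L := dist_pos.2 hpq
  have hnorm : ‖q - p‖ = L := by rw [hL, dist_eq_norm, norm_sub_rev]
  set γ : ℝ → EuclideanSpace ℝ (Fin n) := fun s => p + (s / L) • (q - p) with hγ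
  have hiso : ∀ s t, dist (γ s) (γ t) = |s - t| := by
    intro s t
    rw [dist_eq_norm, hγ]
    simp only
    rw [add_sub_add_left_eq_sub, ← sub_smul, norm_smul, hnorm, ← sub_div, Real.norm_eq_abs,
      abs_div, abs_of_pos hL0]
    field_simp
  have h0 : γ 0 = p := by simp [hγ]
  have h1 : γ L = q := by
    rw [hγ]
    simp only
    rw [div_self hL0.ne', one_smul]
    abel
  have hmaps : ∀ s ∈ Icc 0 L, γ s ∈ Ω := by
    intro s hs
    apply hseg
    rw [segment_eq_image']
    exact ⟨s / L, ⟨by have := hs.1; positivity, by rw [div_le_one hL0]; exact hs.2⟩, rfl⟩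
  have h2 := hg.2 L γ hL0.le (unitSpeed_of_isometry hiso) hmaps
  rw [h0, h1] at h2
  have h3 : ∫⁻ s in Icc 0 L, g (γ s) ≤ ∫⁻ s in Icc 0 L, (G : ℝ≥0∞) := by
    apply lintegral_mono_ae
    rw [ae_restrict_iff' measurableSet_Icc] at hG ⊢
    have h4 : Tendsto (fun s : ℝ => s / L) (ae volume) (ae volume) := by
      have h5 := (Measure.quasiMeasurePreserving_smul (volume : Measure ℝ)
        (inv_ne_zero hL0.ne')).tendsto_ae
      refine h5.congr ?_
      intro s
      simp [div_eq_inv_mul]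
    filter_upwards [h4.eventually hG] with s hs hs2
    apply hs
    exact ⟨by have := hs2.1; positivity, by rw [div_le_one hL0]; exact hs2.2⟩
  have h4 := h2.trans h3
  rw [lintegral_const, Measure.restrict_apply MeasurableSet.univ, univ_inter, Real.volume_Icc,
    sub_zero] at h4
  have h5 : (G : ℝ≥0∞) * ENNReal.ofReal L = ENNReal.ofReal (G * L) := by
    rw [ENNReal.ofReal_mul (by positivity), ENNReal.ofReal_coe_nnreal]
  rw [h5] at h4
  exact (ENNReal.ofReal_le_ofReal_iff (by positivity)).1 h4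

/-- almost every segment misses a null set -/
lemma ae_segment {Z : Set (EuclideanSpace ℝ (Fin n))} (hZ : volume Z = 0)
    (hZm : MeasurableSet Z) :
    ∀ᵐ p : EuclideanSpace ℝ (Fin n), ∀ᵐ q : EuclideanSpace ℝ (Fin n),
      ∀ᵐ s ∂(volume.restrict (Icc (0 : ℝ) 1)), p + s • (q - p) ∉ Z := by
  have c1 : ∀ q : EuclideanSpace ℝ (Fin n), ∀ s : ℝ, s ≠ 1 →
      ∀ᵐ p : EuclideanSpace ℝ (Fin n), p + s • (q - p) ∉ Z := by
    intro q s hs
    have h1 : (1 - s) ≠ 0 := fun h => hs (by linarith)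
    have h2 := (Measure.quasiMeasurePreserving_smul
      (volume : Measure (EuclideanSpace ℝ (Fin n))) h1).tendsto_ae
    have h3 : Tendsto (fun y : EuclideanSpace ℝ (Fin n) => y + s • q) (ae volume) (ae volume) :=
      (measurePreserving_add_right volume (s • q)).quasiMeasurePreserving.tendsto_ae
    have h4 : ∀ᵐ y : EuclideanSpace ℝ (Fin n), y ∉ Z := by
      rw [ae_iff]; simpa using hZ
    filter_upwards [(h3.comp h2).eventually h4] with p hp
    have e : p + s • (q - p) = (1 - s) • p + s • q := by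
      rw [smul_sub, sub_smul, one_smul]; abel
    rw [e]
    exact hp
  have c2 : ∀ q : EuclideanSpace ℝ (Fin n), ∀ᵐ p : EuclideanSpace ℝ (Fin n),
      ∀ᵐ s ∂(volume.restrict (Icc (0 : ℝ) 1)), p + s • (q - p) ∉ Z := by
    intro q
    have hm : MeasurableSet {x : EuclideanSpace ℝ (Fin n) × ℝ |
        x.1 + x.2 • (q - x.1) ∉ Z} := by
      have hc : Measurable (fun x : EuclideanSpace ℝ (Fin n) × ℝ => x.1 + x.2 • (q - x.1)) := by
        fun_prop
      exact (hc hZm).compl
    rw [Measure.ae_ae_comm (p := fun (p : EuclideanSpace ℝ (Fin n)) (s : ℝ) =>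
      p + s • (q - p) ∉ Z) hm]
    have h1 : ∀ᵐ s ∂(volume.restrict (Icc (0 : ℝ) 1)), s ≠ 1 := by
      apply ae_restrict_of_ae
      rw [ae_iff]
      simp
    filter_upwards [h1] with s hs
    exact c1 q s hs
  have hS : MeasurableSet {x : (EuclideanSpace ℝ (Fin n) × EuclideanSpace ℝ (Fin n)) × ℝ |
      x.1.1 + x.2 • (x.1.2 - x.1.1) ∈ Z} := by
    have hc : Measurable (fun x : (EuclideanSpace ℝ (Fin n) × EuclideanSpace ℝ (Fin n)) × ℝ =>
        x.1.1 + x.2 • (x.1.2 - x.1.1)) := by
      fun_prop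
    exact hc hZm
  have hQ : MeasurableSet {x : EuclideanSpace ℝ (Fin n) × EuclideanSpace ℝ (Fin n) |
      ∀ᵐ s ∂(volume.restrict (Icc (0 : ℝ) 1)), x.1 + s • (x.2 - x.1) ∉ Z} := by
    have h1 := measurable_measure_prodMk_left (ν := volume.restrict (Icc (0 : ℝ) 1)) hS
    have h2 := h1 (measurableSet_singleton 0)
    convert h2 using 1
    ext x
    simp only [mem_ofPred_eq, mem_preimage, mem_singleton_iff]
    rw [ae_iff]
    simp only [not_not]
    rfl
  rw [Measure.ae_ae_comm (p := fun (p q : EuclideanSpace ℝ (Fin n)) =>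
      ∀ᵐ s ∂(volume.restrict (Icc (0 : ℝ) 1)), p + s • (q - p) ∉ Z) hQ]
  exact Eventually.of_forall c2

/-- segments between points near the end points stay in an open set -/
lemma segment_nhds {W : Set (EuclideanSpace ℝ (Fin n))} (hW : IsOpen W)
    {p q : EuclideanSpace ℝ (Fin n)} (h : segment ℝ p q ⊆ W) :
    ∃ δ > 0, ∀ p' ∈ ball p δ, ∀ q' ∈ ball q δ, segment ℝ p' q' ⊆ W := by
  have hc : IsCompact (segment ℝ p q) := by
    rw [segment_eq_image']
    exact isCompact_Icc.image (by fun_prop)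
  obtain ⟨δ, hδ, hδW⟩ := hc.exists_thickening_subset_open hW h
  refine ⟨δ, hδ, fun p' hp' q' hq' z hz => hδW ?_⟩
  obtain ⟨a, b, ha, hb, hab, rfl⟩ := hz
  rw [mem_thickening_iff]
  refine ⟨a • p + b • q, ⟨a, b, ha, hb, hab, rfl⟩, ?_⟩
  rw [dist_eq_norm]
  have e : a • p' + b • q' - (a • p + b • q) = a • (p' - p) + b • (q' - q) := by
    rw [smul_sub, smul_sub]; abel
  rw [e]
  rw [mem_ball, dist_eq_norm] at hp' hq'
  have h1 := norm_add_le (a • (p' - p)) (b • (q' - q))
  rw [norm_smul, norm_smul, Real.norm_of_nonneg ha, Real.norm_of_nonneg hb] at h1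
  have h2 : a * ‖p' - p‖ + b * ‖q' - q‖ < δ := by
    rcases eq_or_lt_of_le ha with h | h
    · have hb1 : b = 1 := by linarith
      rw [← h, hb1]; linarith
    · nlinarith [mul_lt_mul_of_pos_left hp' h, mul_le_mul_of_nonneg_left hq'.le hb]
  linarith

/-- representative, Lipschitz along segments -/
theorem exists_rep {Ω W : Set (EuclideanSpace ℝ (Fin n))} (hW : IsOpen W) (hWΩ : W ⊆ Ω)
    {g : EuclideanSpace ℝ (Fin n) → ℝ≥0∞} {u : EuclideanSpace ℝ (Fin n) → ℝ}
    (hg : IsUpperGradient Ω g u) {G : ℝ≥0} (hG : ∀ᵐ y ∂(volume.restrict W), g y ≤ G) :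
    ∃ v : EuclideanSpace ℝ (Fin n) → ℝ, (∀ᵐ y ∂(volume.restrict W), u y = v y) ∧
      ∀ p q, segment ℝ p q ⊆ W → |v p - v q| ≤ G * dist p q := by
  classical
  -- the exceptional null set
  obtain ⟨Z, hZsub, hZm, hZ0⟩ : ∃ Z : Set (EuclideanSpace ℝ (Fin n)),
      {y | y ∈ W ∧ ¬ g y ≤ G} ⊆ Z ∧ MeasurableSet Z ∧ volume Z = 0 := by
    apply exists_measurable_superset_of_null
    rw [ae_restrict_iff' hW.measurableSet, ae_iff] at hG
    convert hG using 2
    ext y
    simp
  set Q : EuclideanSpace ℝ (Fin n) → EuclideanSpace ℝ (Fin n) → Prop := fun p q =>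
    ∀ᵐ s ∂(volume.restrict (Icc (0 : ℝ) 1)), p + s • (q - p) ∉ Z with hQ
  have hQ1 : ∀ p q, Q p q → segment ℝ p q ⊆ W → |u p - u q| ≤ G * dist p q := by
    intro p q h1 h2
    apply upperGradient_segment hg (h2.trans hWΩ)
    rw [hQ] at h1
    rw [ae_restrict_iff' measurableSet_Icc] at h1 ⊢
    filter_upwards [h1] with s hs hs2
    by_contra hcon
    apply hs hs2
    apply hZsub
    refine ⟨?_, hcon⟩
    apply h2
    rw [segment_eq_image']
    exact ⟨s, hs2, rfl⟩
  set E : Set (EuclideanSpace ℝ (Fin n)) := {p | p ∈ W ∧ ∀ᵐ q, Q p q} with hE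
  have hEae : ∀ᵐ p ∂(volume.restrict W), p ∈ E := by
    rw [ae_restrict_iff' hW.measurableSet]
    filter_upwards [ae_segment hZ0 hZm] with p hp hpW
    exact ⟨hpW, hp⟩
  have hElip : ∀ p ∈ E, ∀ p' ∈ E, segment ℝ p p' ⊆ W → |u p - u p'| ≤ G * dist p p' := by
    intro p hp p' hp' hseg
    apply le_of_forall_pos_le_add
    intro ε hε
    obtain ⟨δ, hδ, hδW⟩ := segment_nhds hW hseg
    obtain ⟨δ', hδ', hδW'⟩ := Metric.isOpen_iff.1 hW p hp.1
    set η : ℝ := min (min δ δ') (ε / (2 * (G + 1))) with hη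
    have hηpos : 0 < η := by
      apply lt_min (lt_min hδ hδ')
      positivity
    have h1 : ∀ᵐ q ∂(volume.restrict (ball p η)), Q p q ∧ Q p' q := by
      apply ae_restrict_of_ae
      filter_upwards [hp.2, hp'.2] with q h1 h2 using ⟨h1, h2⟩
    have hne : (volume.restrict (ball p η)) ≠ 0 := by
      intro h
      have := Measure.restrict_eq_zero.1 h
      exact (measure_ball_pos volume p hηpos).ne' this
    have : NeBot (ae (volume.restrict (ball p η))) := ae_neBot.2 hne
    have h2 : ∀ᵐ q ∂(volume.restrict (ball p η)), q ∈ ball p η :=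
      ae_restrict_mem measurableSet_ball
    obtain ⟨q, ⟨hq1, hq2⟩, hq3⟩ := (h1.and h2).exists
    have s1 : segment ℝ p q ⊆ W := by
      apply Subset.trans _ hδW'
      apply (convex_ball p δ').segment_subset (mem_ball_self hδ')
      exact ball_subset_ball ((min_le_left _ _).trans (min_le_right _ _)) hq3
    have s2 : segment ℝ p' q ⊆ W := by
      rw [segment_symm]
      apply hδW q (ball_subset_ball ((min_le_left _ _).trans (min_le_left _ _)) hq3) p'
        (mem_ball_self hδ)
    have i1 := hQ1 p q hq1 s1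
    have i2 := hQ1 p' q hq2 s2
    have hd : dist q p < η := hq3
    have hd2 : dist p' q ≤ dist p p' + η := by
      have := dist_triangle p' p q
      rw [dist_comm p' p, dist_comm p q] at this
      linarith
    have hd1 : dist p q ≤ η := by rw [dist_comm]; exact hd.le
    have hGη : G * η ≤ ε / 2 := by
      have h3 : η ≤ ε / (2 * (G + 1)) := min_le_right _ _
      have h4 : (G : ℝ) * η ≤ (G + 1) * (ε / (2 * (G + 1))) := by
        apply mul_le_mul _ h3 hηpos.le (by positivity)
        linarith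
      have h5 : ((G : ℝ) + 1) * (ε / (2 * (G + 1))) = ε / 2 := by
        field_simp
      linarith
    have h6 : |u p - u p'| ≤ |u p - u q| + |u p' - u q| := by
      have e : u p - u p' = (u p - u q) - (u p' - u q) := by ring
      rw [e]
      exact abs_sub _ _
    have h7 : (G : ℝ) * dist p q ≤ G * η := mul_le_mul_of_nonneg_left hd1 (by positivity)
    have h8 : (G : ℝ) * dist p' q ≤ G * (dist p p' + η) :=
      mul_le_mul_of_nonneg_left hd2 (by positivity)
    linarith
  have hdense : ∀ p ∈ W, NeBot (𝓝[E] p) := by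
    intro p hp
    rw [← mem_closure_iff_nhdsWithin_neBot, Metric.mem_closure_iff]
    intro ε hε
    obtain ⟨δ', hδ', hδW'⟩ := Metric.isOpen_iff.1 hW p hp
    set η : ℝ := min δ' ε
    have hηpos : 0 < η := lt_min hδ' hε
    have h0 : ∀ᵐ q ∂(volume.restrict (ball p η)), q ∈ E := by
      have h3 : ball p η ⊆ W := (ball_subset_ball (min_le_left _ _)).trans hδW'
      exact ae_restrict_of_ae_restrict_of_subset h3 hEae
    have hne : (volume.restrict (ball p η)) ≠ 0 := by
      intro h
      have := Measure.restrict_eq_zero.1 h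
      exact (measure_ball_pos volume p hηpos).ne' this
    have : NeBot (ae (volume.restrict (ball p η))) := ae_neBot.2 hne
    have h2 : ∀ᵐ q ∂(volume.restrict (ball p η)), q ∈ ball p η :=
      ae_restrict_mem measurableSet_ball
    obtain ⟨q, hq1, hq3⟩ := (h0.and h2).exists
    refine ⟨q, hq1, ?_⟩
    have : dist q p < η := hq3
    rw [dist_comm]
    exact lt_of_lt_of_le this (min_le_right _ _)
  have hlim : ∀ p ∈ W, ∃ l : ℝ, Tendsto u (𝓝[E] p) (𝓝 l) := by
    intro p hp
    have := hdense p hp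
    rw [← cauchy_map_iff_exists_tendsto, Metric.cauchy_iff]
    refine ⟨by infer_instance, fun ε hε => ?_⟩
    obtain ⟨δ', hδ', hδW'⟩ := Metric.isOpen_iff.1 hW p hp
    set η : ℝ := min δ' (ε / (2 * (G + 1))) with hη
    have hηpos : 0 < η := by
      apply lt_min hδ'
      positivity
    refine ⟨u '' (E ∩ ball p η), ?_, ?_⟩
    · rw [mem_map]
      apply mem_of_superset _ (subset_preimage_image _ _)
      exact inter_mem self_mem_nhdsWithin (mem_nhdsWithin_of_mem_nhds (ball_mem_nhds p hηpos))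
    · rintro _ ⟨a, ⟨ha1, ha2⟩, rfl⟩ _ ⟨b, ⟨hb1, hb2⟩, rfl⟩
      have hsub : ball p η ⊆ W := (ball_subset_ball (min_le_left _ _)).trans hδW'
      have h1 := hElip a ha1 b hb1
        (((convex_ball p η).segment_subset ha2 hb2).trans hsub)
      have h2 : dist a b < 2 * η := by
        have := dist_triangle_right a b p
        have h3 : dist a p < η := ha2
        have h4 : dist b p < η := hb2
        linarith
      have h3 : η ≤ ε / (2 * (G + 1)) := min_le_right _ _
      rw [Real.dist_eq]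
      have h4 : (G : ℝ) * dist a b ≤ G * (2 * η) :=
        mul_le_mul_of_nonneg_left h2.le (by positivity)
      have h5 : (G : ℝ) * (2 * η) < (G + 1) * (2 * η) := by
        apply mul_lt_mul_of_pos_right _ (by positivity)
        linarith
      have h6 : ((G : ℝ) + 1) * (2 * η) ≤ (G + 1) * (2 * (ε / (2 * (G + 1)))) := by
        apply mul_le_mul_of_nonneg_left _ (by positivity)
        linarith
      have h7 : ((G : ℝ) + 1) * (2 * (ε / (2 * (G + 1)))) = ε := by field_simp
      linarith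
  set v : EuclideanSpace ℝ (Fin n) → ℝ := fun p => if hp : p ∈ W then (hlim p hp).choose else 0
    with hv
  have hv1 : ∀ p ∈ W, Tendsto u (𝓝[E] p) (𝓝 (v p)) := by
    intro p hp
    have := (hlim p hp).choose_spec
    rw [hv]
    simp only [hp, dif_pos]
    exact this
  refine ⟨v, ?_, ?_⟩
  · filter_upwards [hEae] with p hp
    have := hdense p hp.1
    have h1 : Tendsto u (𝓝[E] p) (𝓝 (u p)) := by
      rw [Metric.tendsto_nhds]
      intro ε hε
      obtain ⟨δ', hδ', hδW'⟩ := Metric.isOpen_iff.1 hW p hp.1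
      set η : ℝ := min δ' (ε / (G + 1)) with hη
      have hηpos : 0 < η := by
        apply lt_min hδ'
        positivity
      have hmem : E ∩ ball p η ∈ 𝓝[E] p :=
        inter_mem self_mem_nhdsWithin (mem_nhdsWithin_of_mem_nhds (ball_mem_nhds p hηpos))
      filter_upwards [hmem] with a ha
      have hsub : ball p η ⊆ W := (ball_subset_ball (min_le_left _ _)).trans hδW'
      have h1 := hElip a ha.1 p hp
        (((convex_ball p η).segment_subset ha.2 (mem_ball_self hηpos)).trans hsub)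
      have h3 : dist a p < η := ha.2
      have h4 : (G : ℝ) * dist a p ≤ G * η := mul_le_mul_of_nonneg_left h3.le (by positivity)
      have h5 : (G : ℝ) * η < (G + 1) * η := by
        apply mul_lt_mul_of_pos_right _ (by positivity)
        linarith
      have h6 : ((G : ℝ) + 1) * η ≤ (G + 1) * (ε / (G + 1)) := by
        apply mul_le_mul_of_nonneg_left _ (by positivity)
        exact min_le_right _ _
      have h7 : ((G : ℝ) + 1) * (ε / (G + 1)) = ε := by field_simp
      rw [Real.dist_eq]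
      linarith
    exact tendsto_nhds_unique h1 (hv1 p hp.1)
  · intro p q hseg
    have hp : p ∈ W := hseg (left_mem_segment ℝ p q)
    have hq : q ∈ W := hseg (right_mem_segment ℝ p q)
    have := hdense p hp
    have := hdense q hq
    obtain ⟨δ, hδ, hδW⟩ := segment_nhds hW hseg
    have t1 : Tendsto (fun x : EuclideanSpace ℝ (Fin n) × EuclideanSpace ℝ (Fin n) =>
        |u x.1 - u x.2|) (𝓝[E] p ×ˢ 𝓝[E] q) (𝓝 |v p - v q|) :=
      (((hv1 p hp).comp tendsto_fst).sub ((hv1 q hq).comp tendsto_snd)).abs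
    have t2 : Tendsto (fun x : EuclideanSpace ℝ (Fin n) × EuclideanSpace ℝ (Fin n) =>
        (G : ℝ) * dist x.1 x.2) (𝓝[E] p ×ˢ 𝓝[E] q) (𝓝 (G * dist p q)) := by
      apply Tendsto.const_mul
      have h1 : Tendsto (fun x : EuclideanSpace ℝ (Fin n) × EuclideanSpace ℝ (Fin n) => x.1)
          (𝓝[E] p ×ˢ 𝓝[E] q) (𝓝 p) := tendsto_fst.mono_right nhdsWithin_le_nhds
      have h2 : Tendsto (fun x : EuclideanSpace ℝ (Fin n) × EuclideanSpace ℝ (Fin n) => x.2)
          (𝓝[E] p ×ˢ 𝓝[E] q) (𝓝 q) := tendsto_snd.mono_right nhdsWithin_le_nhds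
      exact h1.dist h2
    apply le_of_tendsto_of_tendsto t1 t2
    have m1 : E ∩ ball p δ ∈ 𝓝[E] p :=
      inter_mem self_mem_nhdsWithin (mem_nhdsWithin_of_mem_nhds (ball_mem_nhds p hδ))
    have m2 : E ∩ ball q δ ∈ 𝓝[E] q :=
      inter_mem self_mem_nhdsWithin (mem_nhdsWithin_of_mem_nhds (ball_mem_nhds q hδ))
    filter_upwards [prod_mem_prod m1 m2] with x hx
    exact hElip x.1 hx.1.1 x.2 hx.2.1 (hδW x.1 hx.1.2 x.2 hx.2.2)

/-- a function Lipschitz along segments is Lipschitz along Lipschitz paths -/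
theorem path_le {W : Set (EuclideanSpace ℝ (Fin n))} (hW : IsOpen W)
    {v : EuclideanSpace ℝ (Fin n) → ℝ} {G : ℝ} (hG : 0 ≤ G)
    (hv : ∀ p q, segment ℝ p q ⊆ W → |v p - v q| ≤ G * dist p q)
    {γ : ℝ → EuclideanSpace ℝ (Fin n)} {M : ℝ} (hM : 0 ≤ M)
    (hγ : ∀ s ∈ Icc (0 : ℝ) 1, ∀ t ∈ Icc (0 : ℝ) 1, dist (γ s) (γ t) ≤ M * |s - t|)
    (hγW : ∀ s ∈ Icc (0 : ℝ) 1, γ s ∈ W) :
    |v (γ 0) - v (γ 1)| ≤ G * M := by
  have hcont : ContinuousOn γ (Icc 0 1) := by
    have : LipschitzOnWith (Real.toNNReal M) γ (Icc 0 1) := by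
      apply LipschitzOnWith.of_dist_le_mul
      intro x hx y hy
      rw [Real.coe_toNNReal _ hM, Real.dist_eq]
      exact hγ x hx y hy
    exact this.continuousOn
  have hcomp : IsCompact (γ '' Icc 0 1) := isCompact_Icc.image_of_continuousOn hcont
  obtain ⟨δ, hδ, hδW⟩ := hcomp.exists_thickening_subset_open hW
    (by rintro _ ⟨s, hs, rfl⟩; exact hγW s hs)
  obtain ⟨N, hN⟩ := exists_nat_gt (M / δ)
  have hN0 : 0 < (N : ℝ) := lt_of_le_of_lt (by positivity) hN
  have hpt : ∀ i : ℕ, i ≤ N → (i : ℝ) / N ∈ Icc (0 : ℝ) 1 := by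
    intro i hi
    refine ⟨by positivity, ?_⟩
    rw [div_le_one hN0]
    exact_mod_cast hi
  have hstep : ∀ i : ℕ, i < N → |v (γ ((i : ℝ) / N)) - v (γ (((i + 1 : ℕ) : ℝ) / N))| ≤
      G * M / N := by
    intro i hi
    have hd : dist (γ ((i : ℝ) / N)) (γ (((i + 1 : ℕ) : ℝ) / N)) ≤ M / N := by
      have h1 := hγ _ (hpt i hi.le) _ (hpt (i + 1) hi)
      have h2 : |(i : ℝ) / N - ((i + 1 : ℕ) : ℝ) / N| = 1 / N := by
        have : (i : ℝ) / N - ((i + 1 : ℕ) : ℝ) / N = -(1 / N) := by
          push_cast; ring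
        rw [this, abs_neg, abs_of_pos (by positivity)]
      rw [h2] at h1
      calc _ ≤ M * (1 / N) := h1
        _ = M / N := by ring
    have hdδ : M / N < δ := by
      rw [div_lt_iff₀ hN0]
      rw [div_lt_iff₀ hδ] at hN
      linarith
    have hseg : segment ℝ (γ ((i : ℝ) / N)) (γ (((i + 1 : ℕ) : ℝ) / N)) ⊆ W := by
      have h1 : ball (γ ((i : ℝ) / N)) δ ⊆ W := by
        intro z hz
        apply hδW
        rw [mem_thickening_iff]
        exact ⟨_, mem_image_of_mem γ (hpt i hi.le), hz⟩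
      apply Subset.trans _ h1
      apply (convex_ball _ δ).segment_subset (mem_ball_self hδ)
      rw [mem_ball, dist_comm]
      exact lt_of_le_of_lt hd hdδ
    calc _ ≤ G * dist (γ ((i : ℝ) / N)) (γ (((i + 1 : ℕ) : ℝ) / N)) := hv _ _ hseg
      _ ≤ G * (M / N) := mul_le_mul_of_nonneg_left hd hG
      _ = G * M / N := by ring
  have h1 := dist_le_range_sum_dist (fun i : ℕ => v (γ ((i : ℝ) / N))) N
  have h2 : ∑ i ∈ Finset.range N, dist (v (γ ((i : ℝ) / N))) (v (γ (((i + 1 : ℕ) : ℝ) / N))) ≤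
      ∑ i ∈ Finset.range N, G * M / N := by
    apply Finset.sum_le_sum
    intro i hi
    rw [Real.dist_eq]
    exact hstep i (Finset.mem_range.1 hi)
  rw [Finset.sum_const, Finset.card_range, nsmul_eq_mul] at h2
  have h3 : (N : ℝ) * (G * M / N) = G * M := by field_simp
  rw [h3] at h2
  have h4 := h1.trans h2
  simp only [Nat.cast_zero, zero_div] at h4
  rw [div_self hN0.ne', Real.dist_eq] at h4
  exact h4

end Pool.Agent.WPI
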