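import Mathlib

/-!
# The zigzag functions

`T` is the triangle wave of period 1 with `T x = x` on `[-1/4, 1/4]` and `T x = 1/2 - x` on
`[1/4, 3/4]`; `zig N x = ∑_{j<N} 8^{-j} T (8^j x)`.
-/

namespace Pool.Agent.WPI

noncomputable section

/-- triangle wave -/
def T (x : ℝ) : ℝ := |x + 1 / 4 - round (x + 1 / 4)| - 1 / 4

lemma T_add_int (x : ℝ) (k : ℤ) : T (x + k) = T x := by
  unfold T
  have : x + k + 1 / 4 = (x + 1 / 4) + k := by ring
  rw [this, round_add_intCast]
  push_cast
  ring_nf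

lemma T_lip (x y : ℝ) : |T x - T y| ≤ |x - y| := by
  unfold T
  have key : ∀ a b : ℝ, |a - round a| - |b - round b| ≤ |a - b| := by
    intro a b
    have h1 := round_le a (round b)
    have h2 : |a - (round b : ℝ)| ≤ |a - b| + |b - round b| := by
      have := abs_add_le (a - b) (b - round b)
      have e : a - b + (b - (round b : ℝ)) = a - round b := by ring
      rwa [e] at this
    linarith
  have h1 := key (x + 1 / 4) (y + 1 / 4)
  have h2 := key (y + 1 / 4) (x + 1 / 4)
  have e1 : x + 1 / 4 - (y + 1 / 4) = x - y := by ring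
  have e2 : y + 1 / 4 - (x + 1 / 4) = -(x - y) := by ring
  rw [e1] at h1
  rw [e2, abs_neg] at h2
  rw [abs_le]
  constructor <;> linarith

lemma T_abs (x : ℝ) : |T x| ≤ 1 / 4 := by
  unfold T
  have h := abs_sub_round (x + 1 / 4)
  have h0 := abs_nonneg (x + 1 / 4 - round (x + 1 / 4))
  rw [abs_le]
  constructor <;> linarith

lemma dist_int_eq {a : ℝ} {k : ℤ} (h1 : (k : ℝ) ≤ a) (h2 : a ≤ k + 1 / 2) :
    |a - round a| = a - k := by
  apply le_antisymm
  · have := round_le a k
    rwa [abs_of_nonneg (by linarith : 0 ≤ a - k)] at this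
  · rcases le_or_gt (round a) k with h | h
    · have h' : ((round a : ℤ) : ℝ) ≤ k := by exact_mod_cast h
      have := le_abs_self (a - round a)
      linarith
    · have h' : (k : ℝ) + 1 ≤ (round a : ℤ) := by exact_mod_cast h
      have := neg_le_abs (a - round a)
      linarith

lemma dist_int_eq' {a : ℝ} {k : ℤ} (h1 : (k : ℝ) - 1 / 2 ≤ a) (h2 : a ≤ k) :
    |a - round a| = k - a := by
  apply le_antisymm
  · have := round_le a k
    rwa [abs_of_nonpos (by linarith : a - k ≤ 0), neg_sub] at this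
  · rcases lt_or_ge (round a) k with h | h
    · have h' : ((round a : ℤ) : ℝ) + 1 ≤ k := by exact_mod_cast h
      have := le_abs_self (a - round a)
      linarith
    · have h' : (k : ℝ) ≤ (round a : ℤ) := by exact_mod_cast h
      have := neg_le_abs (a - round a)
      linarith

lemma T_up {x : ℝ} {k : ℤ} (h1 : (k : ℝ) - 1 / 4 ≤ x) (h2 : x ≤ k + 1 / 4) : T x = x - k := by
  unfold T
  rw [dist_int_eq (k := k) (by linarith) (by linarith)]
  ring

lemma T_down {x : ℝ} {k : ℤ} (h1 : (k : ℝ) + 1 / 4 ≤ x) (h2 : x ≤ k + 3 / 4) :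
    T x = k + 1 / 2 - x := by
  unfold T
  rw [dist_int_eq' (k := k + 1) (by push_cast; linarith) (by push_cast; linarith)]
  push_cast
  ring

/-- On a short interval `T` is affine, or the interval contains a corner. -/
lemma T_dichotomy {s t : ℝ} :
    (∃ e c : ℝ, ∀ x, s ≤ x → x ≤ t → T x = e * x + c) ∨
      ∃ x m, s ≤ x ∧ x ≤ t ∧ (8 * x = ((m : ℤ) : ℝ)) := by
  set k : ℤ := ⌈2 * s - 1 / 2⌉ with hk
  have h1 : 2 * s - 1 / 2 ≤ k := Int.le_ceil _
  have h2 : (k : ℝ) < 2 * s - 1 / 2 + 1 := Int.ceil_lt_add_one _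
  by_cases h : ((k : ℝ) + 1 / 2) / 2 ≤ t
  · right
    refine ⟨((k : ℝ) + 1 / 2) / 2, 4 * k + 2, by linarith, h, ?_⟩
    push_cast
    ring
  · left
    push Not at h
    rcases Int.even_or_odd' k with ⟨j, hj | hj⟩
    · refine ⟨1, -j, fun x hx1 hx2 => ?_⟩
      have hj' : (k : ℝ) = 2 * j := by exact_mod_cast hj
      rw [T_up (k := j) (by linarith) (by linarith)]
      ring
    · refine ⟨-1, j + 1 / 2, fun x hx1 hx2 => ?_⟩
      have hj' : (k : ℝ) = 2 * j + 1 := by exact_mod_cast hj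
      rw [T_down (k := j) (by linarith) (by linarith)]
      ring

/-- `zig N x = ∑_{j<N} 8^{-j} T (8^j x)` -/
def zig : ℕ → ℝ → ℝ
  | 0, _ => 0
  | N + 1, x => T x + zig N (8 * x) / 8

lemma zig_zero (x : ℝ) : zig 0 x = 0 := rfl

lemma zig_succ (N : ℕ) (x : ℝ) : zig (N + 1) x = T x + zig N (8 * x) / 8 := rfl

lemma zig_add_int (N : ℕ) : ∀ (x : ℝ) (k : ℤ), zig N (x + k) = zig N x := by
  induction N with
  | zero => intro x k; rfl
  | succ N ih =>
    intro x k
    rw [zig_succ, zig_succ, T_add_int]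
    have : 8 * (x + k) = 8 * x + ((8 * k : ℤ) : ℝ) := by push_cast; ring
    rw [this, ih]

lemma zig_abs (N : ℕ) : ∀ x : ℝ, |zig N x| ≤ 2 / 7 := by
  induction N with
  | zero => intro x; rw [zig_zero, abs_zero]; norm_num
  | succ N ih =>
    intro x
    rw [zig_succ]
    have h1 := T_abs x
    have h2 := ih (8 * x)
    rw [abs_le] at *
    constructor <;> linarith

lemma zig_lip (N : ℕ) : ∀ x y : ℝ, |zig N x - zig N y| ≤ N * |x - y| := by
  induction N with
  | zero => intro x y; simp [zig_zero]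
  | succ N ih =>
    intro x y
    rw [zig_succ, zig_succ]
    have h1 := T_lip x y
    have h2 := ih (8 * x) (8 * y)
    have h3 : |8 * x - 8 * y| = 8 * |x - y| := by
      rw [← mul_sub, abs_mul, abs_of_pos (by norm_num : (0 : ℝ) < 8)]
    rw [h3] at h2
    have e : T x + zig N (8 * x) / 8 - (T y + zig N (8 * y) / 8)
        = (T x - T y) + (zig N (8 * x) - zig N (8 * y)) / 8 := by ring
    rw [e]
    have h4 := abs_add_le (T x - T y) ((zig N (8 * x) - zig N (8 * y)) / 8)
    rw [abs_div, abs_of_pos (by norm_num : (0 : ℝ) < 8)] at h4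
    push_cast
    linarith

lemma zig_continuous (N : ℕ) : Continuous (zig N) := by
  have : LipschitzWith (N : NNReal) (zig N) := by
    apply LipschitzWith.of_dist_le_mul
    intro x y
    rw [Real.dist_eq, Real.dist_eq]
    exact_mod_cast zig_lip N x y
  exact this.continuous

lemma zig_near_zero (N : ℕ) : ∀ u : ℝ, |u| ≤ 2 / 8 ^ N → zig N u = N * u := by
  induction N with
  | zero => intro u _; simp [zig_zero]
  | succ N ih =>
    intro u hu
    have h8 : (0 : ℝ) < 8 ^ N := by positivity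
    have hu8 : |8 * u| ≤ 2 / 8 ^ N := by
      rw [abs_mul, abs_of_pos (by norm_num : (0 : ℝ) < 8)]
      have : (2 : ℝ) / 8 ^ (N + 1) * 8 = 2 / 8 ^ N := by
        rw [pow_succ]
        field_simp
      linarith [mul_le_mul_of_nonneg_right hu (by norm_num : (0 : ℝ) ≤ 8)]
    have hu4 : |u| ≤ 1 / 4 := by
      have h1 : (1 : ℝ) ≤ 8 ^ N := one_le_pow₀ (by norm_num)
      have h2 : (2 : ℝ) / 8 ^ N ≤ 2 := by
        rw [div_le_iff₀ h8]; linarith
      rw [abs_mul, abs_of_pos (by norm_num : (0 : ℝ) < 8)] at hu8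
      linarith
    rw [zig_succ, ih _ hu8]
    rw [abs_le] at hu4
    rw [T_up (k := 0) (by push_cast; linarith) (by push_cast; linarith)]
    push_cast
    ring

/-- three point deviation from linear interpolation (times the length) -/
def dev (f : ℝ → ℝ) (s x t : ℝ) : ℝ := (t - s) * f x - (t - x) * f s - (x - s) * f t

lemma dev_zig_succ (N : ℕ) (s x t : ℝ) :
    dev (zig (N + 1)) s x t = dev T s x t + dev (zig N) (8 * s) (8 * x) (8 * t) / 64 := by
  unfold dev
  simp only [zig_succ]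
  ring

lemma dev_zig_trivial (N : ℕ) {s x t : ℝ} (h1 : s ≤ x) (h2 : x ≤ t) (h : 1 / 4 ≤ t - s) :
    |dev (zig N) s x t| ≤ 16 / 7 * (t - s) ^ 2 := by
  unfold dev
  have a := zig_abs N s
  have b := zig_abs N x
  have c := zig_abs N t
  have h3 : 4 / 7 * (t - s) ≤ 16 / 7 * (t - s) ^ 2 := by nlinarith
  refine le_trans ?_ h3
  rw [abs_le] at *
  have p1 : (t - s) * zig N x ≤ (t - s) * (2 / 7) :=
    mul_le_mul_of_nonneg_left b.2 (by linarith)
  have p1' : (t - s) * (-(2 / 7)) ≤ (t - s) * zig N x :=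
    mul_le_mul_of_nonneg_left b.1 (by linarith)
  have p2 : (t - x) * zig N s ≤ (t - x) * (2 / 7) :=
    mul_le_mul_of_nonneg_left a.2 (by linarith)
  have p2' : (t - x) * (-(2 / 7)) ≤ (t - x) * zig N s :=
    mul_le_mul_of_nonneg_left a.1 (by linarith)
  have p3 : (x - s) * zig N t ≤ (x - s) * (2 / 7) :=
    mul_le_mul_of_nonneg_left c.2 (by linarith)
  have p3' : (x - s) * (-(2 / 7)) ≤ (x - s) * zig N t :=
    mul_le_mul_of_nonneg_left c.1 (by linarith)
  constructor <;> linarith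

lemma dev_zig_zero (N : ℕ) : ∀ {s x t : ℝ}, s ≤ x → x ≤ t → s ≤ 0 → 0 ≤ t →
    |dev (zig N) s x t| ≤ 16 / 7 * (t - s) ^ 2 := by
  induction N with
  | zero =>
    intro s x t _ _ _ _
    simp [dev, zig_zero]
    positivity
  | succ N ih =>
    intro s x t h1 h2 h3 h4
    by_cases h : 1 / 4 ≤ t - s
    · exact dev_zig_trivial _ h1 h2 h
    · push Not at h
      rw [dev_zig_succ]
      have hT : dev T s x t = 0 := by
        unfold dev
        rw [T_up (x := s) (k := 0) (by push_cast; linarith) (by push_cast; linarith),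
          T_up (x := x) (k := 0) (by push_cast; linarith) (by push_cast; linarith),
          T_up (x := t) (k := 0) (by push_cast; linarith) (by push_cast; linarith)]
        ring
      have := @ih (8 * s) (8 * x) (8 * t) (by linarith) (by linarith) (by linarith) (by linarith)
      rw [hT, zero_add, abs_div, abs_of_pos (by norm_num : (0 : ℝ) < 64)]
      nlinarith

lemma dev_T {s x t : ℝ} (h1 : s ≤ x) (h2 : x ≤ t) : |dev T s x t| ≤ 1 / 2 * (t - s) ^ 2 := by
  have e : dev T s x t = (t - x) * (T x - T s) + (x - s) * (T x - T t) := by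
    unfold dev; ring
  rw [e]
  have a := T_lip x s
  have b := T_lip x t
  rw [abs_of_nonneg (by linarith : 0 ≤ x - s)] at a
  rw [abs_of_nonpos (by linarith : x - t ≤ 0)] at b
  have h3 := abs_add_le ((t - x) * (T x - T s)) ((x - s) * (T x - T t))
  rw [abs_mul, abs_mul, abs_of_nonneg (by linarith : 0 ≤ t - x),
    abs_of_nonneg (by linarith : 0 ≤ x - s)] at h3
  have h4 : (t - x) * |T x - T s| ≤ (t - x) * (x - s) :=
    mul_le_mul_of_nonneg_left a (by linarith)
  have h5 : (x - s) * |T x - T t| ≤ (x - s) * (-(x - t)) :=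
    mul_le_mul_of_nonneg_left b (by linarith)
  nlinarith [sq_nonneg ((t - x) - (x - s))]

lemma dev_shift (N : ℕ) (m : ℤ) (s x t : ℝ) :
    dev (zig N) s x t = dev (zig N) (s - m) (x - m) (t - m) := by
  unfold dev
  have h : ∀ y : ℝ, zig N (y - m) = zig N y := by
    intro y
    have := zig_add_int N y (-m)
    push_cast at this
    rw [← this]
    ring_nf
  rw [h, h, h]
  ring

lemma dev_zig (N : ℕ) : ∀ {s x t : ℝ}, s ≤ x → x ≤ t →
    |dev (zig N) s x t| ≤ 3 * (t - s) ^ 2 := by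
  induction N with
  | zero =>
    intro s x t _ _
    simp [dev, zig_zero]
    positivity
  | succ N ih =>
    intro s x t h1 h2
    by_cases h : 1 / 4 ≤ t - s
    · have := dev_zig_trivial (N + 1) h1 h2 h
      nlinarith [sq_nonneg (t - s)]
    · rw [dev_zig_succ]
      rcases T_dichotomy (s := s) (t := t) with ⟨e, c, hec⟩ | ⟨y, m, hy1, hy2, hy⟩
      · have hT : dev T s x t = 0 := by
          unfold dev
          rw [hec s le_rfl (h1.trans h2), hec x h1 h2, hec t (h1.trans h2) le_rfl]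
          ring
        have := @ih (8 * s) (8 * x) (8 * t) (by linarith) (by linarith)
        rw [hT, zero_add, abs_div, abs_of_pos (by norm_num : (0 : ℝ) < 64)]
        nlinarith
      · have hT := dev_T h1 h2
        have hg := @dev_zig_zero N (8 * s - m) (8 * x - m) (8 * t - m) (by linarith)
          (by linarith) (by linarith) (by linarith)
        rw [← dev_shift] at hg
        have h3 := abs_add_le (dev T s x t) (dev (zig N) (8 * s) (8 * x) (8 * t) / 64)
        rw [abs_div, abs_of_pos (by norm_num : (0 : ℝ) < 64)] at h3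
        nlinarith [sq_nonneg (t - s)]

/-- bounded turning -/
lemma zig_turning (N : ℕ) {a b x : ℝ} (h : (a ≤ x ∧ x ≤ b) ∨ (b ≤ x ∧ x ≤ a)) :
    |zig N x - zig N a| ≤ |zig N b - zig N a| + 3 * |b - a| := by
  have key : ∀ s t : ℝ, s ≤ x → x ≤ t → ∀ p q, (p = s ∧ q = t) ∨ (p = t ∧ q = s) →
      |zig N x - zig N p| ≤ |zig N q - zig N p| + 3 * (t - s) := by
    intro s t h1 h2 p q hpq
    rcases eq_or_lt_of_le (h1.trans h2) with hst | hst
    · have hx : x = s := by linarith
      have hp : p = s := by rcases hpq with ⟨h, _⟩ | ⟨h, _⟩ <;> linarith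
      have hq : q = s := by rcases hpq with ⟨_, h⟩ | ⟨_, h⟩ <;> linarith
      rw [hx, hp, hq, hst]
      simp
    · have hd := dev_zig N h1 h2
      have hpos : 0 < t - s := by linarith
      have e : ∀ (w : ℝ), w = (t - s) * (zig N x - zig N p) → |w| ≤
          (t - s) * (|zig N q - zig N p| + 3 * (t - s)) →
          |zig N x - zig N p| ≤ |zig N q - zig N p| + 3 * (t - s) := by
        intro w hw hw2
        rw [hw, abs_mul, abs_of_pos hpos] at hw2
        exact le_of_mul_le_mul_left hw2 hpos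
      apply e _ rfl
      rcases hpq with ⟨hp, hq⟩ | ⟨hp, hq⟩
      · subst hp; subst hq
        have e2 : (q - p) * (zig N x - zig N p) =
            dev (zig N) p x q + (x - p) * (zig N q - zig N p) := by
          unfold dev; ring
        rw [e2]
        have h3 := abs_add_le (dev (zig N) p x q) ((x - p) * (zig N q - zig N p))
        rw [abs_mul (x - p), abs_of_nonneg (by linarith : 0 ≤ x - p)] at h3
        have h4 : (x - p) * |zig N q - zig N p| ≤ (q - p) * |zig N q - zig N p| :=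
          mul_le_mul_of_nonneg_right (by linarith) (abs_nonneg _)
        nlinarith
      · subst hp; subst hq
        have e2 : (p - q) * (zig N x - zig N p) =
            dev (zig N) q x p + (p - x) * (zig N q - zig N p) := by
          unfold dev; ring
        rw [e2]
        have h3 := abs_add_le (dev (zig N) q x p) ((p - x) * (zig N q - zig N p))
        rw [abs_mul (p - x), abs_of_nonneg (by linarith : 0 ≤ p - x)] at h3
        have h4 : (p - x) * |zig N q - zig N p| ≤ (p - q) * |zig N q - zig N p| :=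
          mul_le_mul_of_nonneg_right (by linarith) (abs_nonneg _)
        nlinarith
  rcases h with ⟨h1, h2⟩ | ⟨h1, h2⟩
  · have := key a b h1 h2 a b (Or.inl ⟨rfl, rfl⟩)
    rwa [abs_of_nonneg (by linarith : 0 ≤ b - a)]
  · have := key b a h1 h2 a b (Or.inr ⟨rfl, rfl⟩)
    rw [abs_of_nonpos (by linarith : b - a ≤ 0)]
    linarith

/-- at small scales the slope of `zig N` oscillates by at most `2` -/
lemma zig_small (N : ℕ) : ∀ {s t : ℝ}, t - s ≤ 1 / 8 ^ N →
    ∃ m : ℝ, ∀ x y, s ≤ x → x ≤ t → s ≤ y → y ≤ t →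
      |zig N x - zig N y - m * (x - y)| ≤ |x - y| := by
  induction N with
  | zero =>
    intro s t _
    refine ⟨0, fun x y _ _ _ _ => ?_⟩
    simp [zig_zero]
  | succ N ih =>
    intro s t hst
    have h8 : (0 : ℝ) < 8 ^ N := by positivity
    have hst8 : 8 * t - 8 * s ≤ 1 / 8 ^ N := by
      have : (1 : ℝ) / 8 ^ (N + 1) * 8 = 1 / 8 ^ N := by
        rw [pow_succ]
        field_simp
      linarith
    rcases T_dichotomy (s := s) (t := t) with ⟨e, c, hec⟩ | ⟨z, k, hz1, hz2, hz⟩
    · obtain ⟨m, hm⟩ := ih hst8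
      refine ⟨m + e, fun x y hx1 hx2 hy1 hy2 => ?_⟩
      have h1 := hm (8 * x) (8 * y) (by linarith) (by linarith) (by linarith) (by linarith)
      rw [zig_succ, zig_succ, hec x hx1 hx2, hec y hy1 hy2]
      have e1 : e * x + c + zig N (8 * x) / 8 - (e * y + c + zig N (8 * y) / 8)
          - (m + e) * (x - y) = (zig N (8 * x) - zig N (8 * y) - m * (8 * x - 8 * y)) / 8 := by
        ring
      have h3 : |8 * x - 8 * y| = 8 * |x - y| := by
        rw [← mul_sub, abs_mul, abs_of_pos (by norm_num : (0 : ℝ) < 8)]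
      rw [e1, abs_div, abs_of_pos (by norm_num : (0 : ℝ) < 8)]
      rw [h3] at h1
      linarith
    · have hlin : ∀ x, s ≤ x → x ≤ t → zig N (8 * x) = N * (8 * x - k) := by
        intro x hx1 hx2
        have h1 : zig N (8 * x) = zig N (8 * x - k) := by
          have := zig_add_int N (8 * x) (-k)
          push_cast at this
          rw [← this]
          ring_nf
        rw [h1]
        apply zig_near_zero
        have h2 : (1 : ℝ) / 8 ^ N ≤ 2 / 8 ^ N := by
          apply div_le_div_of_nonneg_right (by norm_num) h8.le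
        rw [abs_le]
        constructor <;> linarith
      refine ⟨N, fun x y hx1 hx2 hy1 hy2 => ?_⟩
      rw [zig_succ, zig_succ, hlin x hx1 hx2, hlin y hy1 hy2]
      have e1 : T x + ↑N * (8 * x - ↑k) / 8 - (T y + ↑N * (8 * y - ↑k) / 8) - ↑N * (x - y)
          = T x - T y := by ring
      rw [e1]
      exact T_lip x y

/-- grid variation with an additional slope `c` -/
def gridVar (N : ℕ) (c : ℝ) : ℝ :=
  ∑ i ∈ Finset.range (8 ^ N),
    |c / 8 ^ N + (zig N (((i : ℝ) + 1) / 8 ^ N) - zig N ((i : ℝ) / 8 ^ N))|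

lemma sum_range_eight (m : ℕ) (F : ℕ → ℝ) :
    ∑ i ∈ Finset.range (m * 8), F i =
      ∑ k ∈ Finset.range 8, ∑ i ∈ Finset.range m, F (k * m + i) := by
  have h : ∀ n : ℕ, ∑ i ∈ Finset.range (m * n), F i =
      ∑ k ∈ Finset.range n, ∑ i ∈ Finset.range m, F (k * m + i) := by
    intro n
    induction n with
    | zero => simp
    | succ n ih =>
      rw [Finset.sum_range_succ, ← ih, Nat.mul_succ, Finset.sum_range_add]
      congr 1
      apply Finset.sum_congr rfl
      intro i _
      rw [mul_comm n m]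
  exact h 8

lemma zig_succ_cell (N k : ℕ) (v e c : ℝ) (hT : T ((k + v) / 8) = e * ((k + v) / 8) + c) :
    zig (N + 1) ((k + v) / 8) = e * ((k + v) / 8) + c + zig N v / 8 := by
  rw [zig_succ, hT]
  have h1 : 8 * ((k + v) / 8) = v + ((k : ℤ) : ℝ) := by push_cast; ring
  rw [h1, zig_add_int]

lemma T_cell (k : ℕ) (hk : k < 8) : ∃ e c : ℝ, (e = 1 ∨ e = -1) ∧
    ((e = 1 ↔ (k = 0 ∨ k = 1 ∨ k = 6 ∨ k = 7))) ∧
    ∀ v : ℝ, 0 ≤ v → v ≤ 1 → T ((k + v) / 8) = e * ((k + v) / 8) + c := by
  interval_cases k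
  · refine ⟨1, 0, Or.inl rfl, by norm_num, fun v h0 h1 => ?_⟩
    rw [T_up (k := 0) (by push_cast; linarith) (by push_cast; linarith)]
    push_cast; ring
  · refine ⟨1, 0, Or.inl rfl, by norm_num, fun v h0 h1 => ?_⟩
    rw [T_up (k := 0) (by push_cast; linarith) (by push_cast; linarith)]
    push_cast; ring
  · refine ⟨-1, 1 / 2, Or.inr rfl, by norm_num, fun v h0 h1 => ?_⟩
    rw [T_down (k := 0) (by push_cast; linarith) (by push_cast; linarith)]
    push_cast; ring
  · refine ⟨-1, 1 / 2, Or.inr rfl, by norm_num, fun v h0 h1 => ?_⟩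
    rw [T_down (k := 0) (by push_cast; linarith) (by push_cast; linarith)]
    push_cast; ring
  · refine ⟨-1, 1 / 2, Or.inr rfl, by norm_num, fun v h0 h1 => ?_⟩
    rw [T_down (k := 0) (by push_cast; linarith) (by push_cast; linarith)]
    push_cast; ring
  · refine ⟨-1, 1 / 2, Or.inr rfl, by norm_num, fun v h0 h1 => ?_⟩
    rw [T_down (k := 0) (by push_cast; linarith) (by push_cast; linarith)]
    push_cast; ring
  · refine ⟨1, -1, Or.inl rfl, by norm_num, fun v h0 h1 => ?_⟩
    rw [T_up (k := 1) (by push_cast; linarith) (by push_cast; linarith)]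
    push_cast; ring
  · refine ⟨1, -1, Or.inl rfl, by norm_num, fun v h0 h1 => ?_⟩
    rw [T_up (k := 1) (by push_cast; linarith) (by push_cast; linarith)]
    push_cast; ring

lemma gridVar_cell (N k : ℕ) (hk : k < 8) (c : ℝ) :
    ∑ i ∈ Finset.range (8 ^ N),
      |c / 8 ^ (N + 1) + (zig (N + 1) ((((k * 8 ^ N + i : ℕ) : ℝ) + 1) / 8 ^ (N + 1))
        - zig (N + 1) (((k * 8 ^ N + i : ℕ) : ℝ) / 8 ^ (N + 1)))| =
      1 / 8 * gridVar N (c + if k = 0 ∨ k = 1 ∨ k = 6 ∨ k = 7 then 1 else -1) := by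
  obtain ⟨e, b, he, hek, hT⟩ := T_cell k hk
  have hif : (if k = 0 ∨ k = 1 ∨ k = 6 ∨ k = 7 then (1 : ℝ) else -1) = e := by
    split_ifs with h
    · exact (hek.2 h).symm
    · rcases he with h' | h'
      · exact absurd (hek.1 h') h
      · exact h'.symm
  rw [hif, gridVar, Finset.mul_sum]
  apply Finset.sum_congr rfl
  intro i hi
  have hi' : i < 8 ^ N := Finset.mem_range.1 hi
  have h8 : (0 : ℝ) < 8 ^ N := by positivity
  have hi1 : (i : ℝ) + 1 ≤ 8 ^ N := by exact_mod_cast hi'
  have e1 : (((k * 8 ^ N + i : ℕ) : ℝ) + 1) / 8 ^ (N + 1) = (k + ((i : ℝ) + 1) / 8 ^ N) / 8 := by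
    push_cast
    rw [pow_succ]
    field_simp
    ring
  have e2 : ((k * 8 ^ N + i : ℕ) : ℝ) / 8 ^ (N + 1) = (k + (i : ℝ) / 8 ^ N) / 8 := by
    push_cast
    rw [pow_succ]
    field_simp
  have v1 : 0 ≤ ((i : ℝ) + 1) / 8 ^ N := by positivity
  have v2 : ((i : ℝ) + 1) / 8 ^ N ≤ 1 := by rw [div_le_one h8]; exact hi1
  have v3 : 0 ≤ (i : ℝ) / 8 ^ N := by positivity
  have v4 : (i : ℝ) / 8 ^ N ≤ 1 := by rw [div_le_one h8]; linarith
  rw [e1, e2, zig_succ_cell N k _ e b (hT _ v1 v2), zig_succ_cell N k _ e b (hT _ v3 v4)]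
  rw [show (1 : ℝ) / 8 = |1 / 8| by rw [abs_of_pos]; norm_num, ← abs_mul]
  congr 1
  rw [pow_succ]
  field_simp
  ring

lemma gridVar_succ (N : ℕ) (c : ℝ) :
    gridVar (N + 1) c = (gridVar N (c + 1) + gridVar N (c - 1)) / 2 := by
  have h : gridVar (N + 1) c = ∑ k ∈ Finset.range 8,
      1 / 8 * gridVar N (c + if k = 0 ∨ k = 1 ∨ k = 6 ∨ k = 7 then 1 else -1) := by
    rw [gridVar, pow_succ, sum_range_eight]
    apply Finset.sum_congr rfl
    intro k hk
    rw [← gridVar_cell N k (Finset.mem_range.1 hk) c]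
  rw [h]
  simp only [Finset.sum_range_succ, Finset.sum_range_zero]
  norm_num
  ring_nf

lemma gridVar_lower (N : ℕ) {t : ℝ} (ht : 0 < t) : ∀ c : ℝ,
    (c ^ 2 + N) / t - (c ^ 4 + 6 * c ^ 2 * N + 3 * N ^ 2) / t ^ 3 ≤ gridVar N c := by
  induction N with
  | zero =>
    intro c
    have h1 : gridVar 0 c = |c| := by simp [gridVar, zig_zero]
    rw [h1]
    have hx : 0 ≤ |c| / t := by positivity
    have h2 : 0 ≤ |c| / t - (|c| / t) ^ 2 + (|c| / t) ^ 4 := by
      rcases le_or_gt (|c| / t) 1 with h | h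
      · have : (|c| / t) ^ 2 ≤ |c| / t := by nlinarith
        have : 0 ≤ (|c| / t) ^ 4 := by positivity
        linarith
      · have : (|c| / t) ^ 2 ≤ (|c| / t) ^ 4 := by
          apply pow_le_pow_right₀ h.le (by norm_num)
        linarith
    have h3 : |c| - ((c ^ 2 + (0 : ℕ)) / t - (c ^ 4 + 6 * c ^ 2 * (0 : ℕ) + 3 * (0 : ℕ) ^ 2) / t ^ 3)
        = t * (|c| / t - (|c| / t) ^ 2 + (|c| / t) ^ 4) := by
      have e2 : |c| ^ 2 = c ^ 2 := sq_abs c
      have e4 : |c| ^ 4 = c ^ 4 := by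
        rw [show (4 : ℕ) = 2 * 2 by norm_num, pow_mul, pow_mul, e2]
      push_cast
      rw [div_pow, div_pow, e2, e4]
      field_simp
      ring
    have h4 : 0 ≤ t * (|c| / t - (|c| / t) ^ 2 + (|c| / t) ^ 4) := mul_nonneg ht.le h2
    linarith
  | succ N ih =>
    intro c
    rw [gridVar_succ]
    have h1 := ih (c + 1)
    have h2 := ih (c - 1)
    have ht3 : 0 < t ^ 3 := by positivity
    have key : ((((c + 1) ^ 2 + N) / t - ((c + 1) ^ 4 + 6 * (c + 1) ^ 2 * N + 3 * N ^ 2) / t ^ 3)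
        + (((c - 1) ^ 2 + N) / t - ((c - 1) ^ 4 + 6 * (c - 1) ^ 2 * N + 3 * N ^ 2) / t ^ 3)) / 2
        = (c ^ 2 + (N + 1)) / t - (c ^ 4 + 6 * c ^ 2 * (N + 1) + 3 * (N + 1) ^ 2) / t ^ 3
          + 2 / t ^ 3 := by
      field_simp
      ring
    have h5 : 0 < 2 / t ^ 3 := by positivity
    push_cast
    linarith

lemma gridVar_large (m : ℕ) (hm : 0 < m) : (m : ℝ) / 2 ≤ gridVar (6 * m ^ 2) 0 := by
  have hm' : (0 : ℝ) < m := by exact_mod_cast hm
  have h := gridVar_lower (6 * m ^ 2) (t := 6 * m) (by positivity) 0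
  have e : ((0 : ℝ) ^ 2 + ((6 * m ^ 2 : ℕ) : ℝ)) / (6 * m) -
      ((0 : ℝ) ^ 4 + 6 * 0 ^ 2 * ((6 * m ^ 2 : ℕ) : ℝ) + 3 * ((6 * m ^ 2 : ℕ) : ℝ) ^ 2)
        / (6 * m) ^ 3 = m / 2 := by
    push_cast
    field_simp
    ring
  rw [e] at h
  exact h

end

end Pool.Agent.WPI
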