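import Mathlib
import Pool.Agent.Lib_helper93.WPI.Zig
import Pool.Agent.Lib_helper93.WPI.UpperGrad

/-!
# The domain

`Ω = {t > 0} ∪ ⋃_N {(x,y,t) : X_N < x < X_N+1, |y - zig N x| < w_N(t), t > -(N+1)}`
in `ℝ³`, with `w_N(t) = b_N exp(Λ_N t)`.
-/

namespace Pool.Agent.WPI

open MeasureTheory Set Metric Filter Topology
open scoped ENNReal NNReal

noncomputable section

/-- `ℝ³` -/
abbrev E3 := EuclideanSpace ℝ (Fin 3)

/-- point with given coordinates -/
def pt (x y t : ℝ) : E3 := !₂[x, y, t]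

@[simp] lemma pt_0 (x y t : ℝ) : pt x y t 0 = x := rfl
@[simp] lemma pt_1 (x y t : ℝ) : pt x y t 1 = y := rfl
@[simp] lemma pt_2 (x y t : ℝ) : pt x y t 2 = t := rfl

lemma eq_pt (z : E3) : z = pt (z 0) (z 1) (z 2) := by
  ext i
  fin_cases i <;> rfl

lemma dist_sq (z z' : E3) :
    dist z z' ^ 2 = (z 0 - z' 0) ^ 2 + (z 1 - z' 1) ^ 2 + (z 2 - z' 2) ^ 2 := by
  rw [EuclideanSpace.dist_eq, Real.sq_sqrt (by positivity), Fin.sum_univ_three]
  simp only [Real.dist_eq, sq_abs]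

lemma abs_coord_le (z z' : E3) (i : Fin 3) : |z i - z' i| ≤ dist z z' := by
  have h := dist_sq z z'
  have hd := dist_nonneg (x := z) (y := z')
  apply abs_le_of_sq_le_sq _ hd
  rw [h]
  have h0 := sq_nonneg (z 0 - z' 0)
  have h1 := sq_nonneg (z 1 - z' 1)
  have h2 := sq_nonneg (z 2 - z' 2)
  fin_cases i
  · change (z 0 - z' 0) ^ 2 ≤ _; linarith
  · change (z 1 - z' 1) ^ 2 ≤ _; linarith
  · change (z 2 - z' 2) ^ 2 ≤ _; linarith

lemma dist_le_sum (z z' : E3) :
    dist z z' ≤ |z 0 - z' 0| + |z 1 - z' 1| + |z 2 - z' 2| := by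
  have h := dist_sq z z'
  have h0 := abs_nonneg (z 0 - z' 0)
  have h1 := abs_nonneg (z 1 - z' 1)
  have h2 := abs_nonneg (z 2 - z' 2)
  apply le_of_sq_le_sq _ (by positivity)
  rw [h, ← sq_abs (z 0 - z' 0), ← sq_abs (z 1 - z' 1), ← sq_abs (z 2 - z' 2)]
  nlinarith [mul_nonneg h0 h1, mul_nonneg h0 h2, mul_nonneg h1 h2]

/-- left end of the `N`-th piece -/
def XX (N : ℕ) : ℝ := 2 * ((N : ℝ) + 1) ^ 2

/-- exponential rate -/
def Lam (N : ℕ) : ℝ := 2048 * ((N : ℝ) + 1) ^ 7 * 8 ^ N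

/-- width at the top -/
def bb (N : ℕ) : ℝ := 1 / (32 * ((N : ℝ) + 1) * 8 ^ N)

/-- width -/
def ww (N : ℕ) (t : ℝ) : ℝ := bb N * Real.exp (Lam N * t)

lemma Lam_pos (N : ℕ) : 0 < Lam N := by unfold Lam; positivity
lemma bb_pos (N : ℕ) : 0 < bb N := by unfold bb; positivity
lemma ww_pos (N : ℕ) (t : ℝ) : 0 < ww N t := by unfold ww; have := bb_pos N; positivity

lemma ww_mono (N : ℕ) {s t : ℝ} (h : s ≤ t) : ww N s ≤ ww N t := by
  unfold ww
  apply mul_le_mul_of_nonneg_left _ (bb_pos N).le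
  apply Real.exp_le_exp.2
  exact mul_le_mul_of_nonneg_left h (Lam_pos N).le

lemma ww_le (N : ℕ) {t : ℝ} (h : t ≤ 0) : ww N t ≤ bb N := by
  unfold ww
  have : Real.exp (Lam N * t) ≤ 1 := by
    rw [Real.exp_le_one_iff]
    exact mul_nonpos_of_nonneg_of_nonpos (Lam_pos N).le h
  nlinarith [bb_pos N]

/-- the `N`-th piece -/
def piece (N : ℕ) : Set E3 :=
  {z | XX N < z 0 ∧ z 0 < XX N + 1 ∧ |z 1 - zig N (z 0)| < ww N (z 2) ∧ -((N : ℝ) + 1) < z 2}

/-- the domain -/
def Om : Set E3 := {z | 0 < z 2} ∪ ⋃ N, piece N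

lemma mem_Om {z : E3} : z ∈ Om ↔ 0 < z 2 ∨ ∃ N, z ∈ piece N := by
  simp [Om]

lemma isOpen_piece (N : ℕ) : IsOpen (piece N) := by
  have hz : Continuous (zig N) := zig_continuous N
  have h0 : Continuous (fun z : E3 => z 0) := by fun_prop
  have h1 : Continuous (fun z : E3 => z 1) := by fun_prop
  have h2 : Continuous (fun z : E3 => z 2) := by fun_prop
  have h3 : Continuous (fun z : E3 => |z 1 - zig N (z 0)|) := (h1.sub (hz.comp h0)).abs
  have h4 : Continuous (fun z : E3 => ww N (z 2)) := by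
    unfold ww
    exact continuous_const.mul (Real.continuous_exp.comp (continuous_const.mul h2))
  have e : piece N = {z : E3 | XX N < z 0} ∩ ({z : E3 | z 0 < XX N + 1} ∩
      ({z : E3 | |z 1 - zig N (z 0)| < ww N (z 2)} ∩ {z : E3 | -((N : ℝ) + 1) < z 2})) := rfl
  rw [e]
  exact (isOpen_lt continuous_const h0).inter ((isOpen_lt h0 continuous_const).inter
    ((isOpen_lt h3 h4).inter (isOpen_lt continuous_const h2)))

lemma isOpen_Om : IsOpen Om := by
  have h2 : Continuous (fun z : E3 => z 2) := by fun_prop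
  exact (isOpen_lt continuous_const h2).union (isOpen_iUnion isOpen_piece)

lemma Om_up {x y t t' : ℝ} (h : pt x y t ∈ Om) (htt : t ≤ t') : pt x y t' ∈ Om := by
  rw [mem_Om] at h ⊢
  rcases h with h | ⟨N, h1, h2, h3, h4⟩
  · left
    simp only [pt_2] at h ⊢
    linarith
  · right
    simp only [pt_0, pt_1, pt_2] at h1 h2 h3 h4
    exact ⟨N, h1, h2, lt_of_lt_of_le h3 (ww_mono N htt), lt_of_lt_of_le h4 htt⟩

lemma segment_coord {p q z : E3} (hz : z ∈ segment ℝ p q) :
    ∃ τ ∈ Icc (0 : ℝ) 1, ∀ i, z i = p i + τ * (q i - p i) := by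
  rw [segment_eq_image'] at hz
  obtain ⟨τ, hτ, rfl⟩ := hz
  refine ⟨τ, hτ, fun i => ?_⟩
  simp

/-- vertical segments upwards -/
lemma vertical {z₀ : E3} {R x y t t' : ℝ} (h : pt x y t ∈ Om) (htt : t ≤ t')
    (h1 : |x - z₀ 0| + |y - z₀ 1| + |t - z₀ 2| < R)
    (h2 : |x - z₀ 0| + |y - z₀ 1| + |t' - z₀ 2| < R) :
    segment ℝ (pt x y t) (pt x y t') ⊆ ball z₀ R ∩ Om := by
  intro z hz
  obtain ⟨τ, hτ, hz⟩ := segment_coord hz
  have e0 := hz 0
  have e1 := hz 1
  have e2 := hz 2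
  simp only [pt_0, pt_1, pt_2, sub_self, mul_zero, add_zero] at e0 e1 e2
  have hup : t ≤ z 2 := by rw [e2]; nlinarith [hτ.1]
  constructor
  · rw [mem_ball]
    apply lt_of_le_of_lt (dist_le_sum z z₀)
    rw [e0, e1]
    have hz2 : |z 2 - z₀ 2| ≤ max |t - z₀ 2| |t' - z₀ 2| := by
      have hlt : z 2 ≤ t' := by rw [e2]; nlinarith [hτ.2]
      rcases le_or_gt (z₀ 2) (z 2) with h | h
      · rw [abs_of_nonneg (by linarith)]
        apply le_max_of_le_right
        rw [abs_of_nonneg (by linarith)]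
        linarith
      · rw [abs_of_nonpos (by linarith)]
        apply le_max_of_le_left
        rw [abs_of_nonpos (by linarith)]
        linarith
    rcases le_total (|t - z₀ 2|) (|t' - z₀ 2|) with h | h
    · rw [max_eq_right h] at hz2; linarith
    · rw [max_eq_left h] at hz2; linarith
  · rw [eq_pt z, e0, e1]
    exact Om_up h hup

/-- horizontal segments in the upper half space -/
lemma horizontal {z₀ : E3} {R x y x' y' t : ℝ} (ht : 0 < t)
    (h1 : pt x y t ∈ ball z₀ R) (h2 : pt x' y' t ∈ ball z₀ R) :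
    segment ℝ (pt x y t) (pt x' y' t) ⊆ ball z₀ R ∩ Om := by
  intro z hz
  refine ⟨(convex_ball z₀ R).segment_subset h1 h2 hz, ?_⟩
  obtain ⟨τ, hτ, hz⟩ := segment_coord hz
  have e2 := hz 2
  simp only [pt_2, sub_self, mul_zero, add_zero] at e2
  rw [mem_Om]
  left
  rw [e2]
  exact ht

lemma isConnected_Om : IsConnected Om := by
  have hH : IsPathConnected {z : E3 | 0 < z 2} := by
    have hconv : Convex ℝ {z : E3 | 0 < z 2} := by
      intro p hp q hq a b ha hb hab
      have hp' : 0 < p 2 := hp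
      have hq' : 0 < q 2 := hq
      change 0 < (a • p + b • q) 2
      simp only [PiLp.add_apply, PiLp.smul_apply, smul_eq_mul]
      rcases eq_or_lt_of_le ha with h | h
      · have hb1 : b = 1 := by linarith
        rw [← h, hb1]; linarith
      · have := mul_pos h hp'
        have := mul_nonneg hb hq'.le
        linarith
    exact hconv.isPathConnected ⟨pt 0 0 1, by simp⟩
  have : IsPathConnected Om := by
    refine ⟨pt 0 0 1, by rw [mem_Om]; left; simp, fun {z} hz => ?_⟩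
    have h1 : JoinedIn Om (pt 0 0 1) (pt (z 0) (z 1) (|z 2| + 1)) := by
      apply (hH.joinedIn (pt 0 0 1) (by simp) (pt (z 0) (z 1) (|z 2| + 1)) _).mono
      · exact fun w hw => mem_Om.2 (Or.inl hw)
      · change 0 < |z 2| + 1
        positivity
    have h2 : JoinedIn Om (pt (z 0) (z 1) (z 2)) (pt (z 0) (z 1) (|z 2| + 1)) := by
      apply JoinedIn.of_segment_subset
      intro w hw
      obtain ⟨τ, hτ, hw⟩ := segment_coord hw
      have e0 := hw 0
      have e1 := hw 1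
      have e2 := hw 2
      simp only [pt_0, pt_1, pt_2, sub_self, mul_zero, add_zero] at e0 e1 e2
      rw [eq_pt w, e0, e1]
      rw [eq_pt z] at hz
      apply Om_up hz
      rw [e2]
      have : z 2 ≤ |z 2| := le_abs_self _
      nlinarith [hτ.1]
    rw [← eq_pt z] at h2
    exact h1.trans h2.symm
  exact this.isConnected

/-- near a point of the `N`-th piece only this piece is seen -/
lemma piece_unique {N : ℕ} {z₀ z : E3} (h₀ : z₀ ∈ piece N) {r : ℝ} (hr : z₀ 2 + 2 * r < 0)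
    (hr0 : 0 < r) (hz : z ∈ Om) (hd : dist z z₀ < r) : z ∈ piece N ∧ z 2 < z₀ 2 + r := by
  have c0 := abs_coord_le z z₀ 0
  have c2 := abs_coord_le z z₀ 2
  rw [abs_le] at c0 c2
  refine ⟨?_, by linarith [c2.2]⟩
  rw [mem_Om] at hz
  rcases hz with hz | ⟨M, hz⟩
  · exfalso; linarith [c2.2]
  · have hM : M = N := by
      by_contra hne
      obtain ⟨a1, a2, _, a4⟩ := h₀
      obtain ⟨b1, b2, _, b4⟩ := hz
      have hrN : r < ((N : ℝ) + 1) / 2 := by linarith
      unfold XX at *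
      rcases lt_or_gt_of_ne hne with h | h
      · have hMN : (M : ℝ) + 1 ≤ N := by exact_mod_cast h
        have hM0 : (0 : ℝ) ≤ M := Nat.cast_nonneg M
        nlinarith
      · have hMN : (N : ℝ) + 1 ≤ M := by exact_mod_cast h
        have hN0 : (0 : ℝ) ≤ N := Nat.cast_nonneg N
        nlinarith
    rw [← hM]
    exact hz

end

end Pool.Agent.WPI
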