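import Mathlib
import Pool.Agent.Lib_helper93.WPI.Domain

/-!
# Paths in the domain
-/

namespace Pool.Agent.WPI

open MeasureTheory Set Metric Filter Topology
open scoped ENNReal NNReal

noncomputable section

variable {z₀ : E3} {r G : ℝ} {v : E3 → ℝ}

/-- large balls: everything is connected through the half space -/
lemma large_ball (hr : 0 < r) (hG : 0 ≤ G) (hz₀ : z₀ ∈ Om)
    (hv : ∀ p q, segment ℝ p q ⊆ ball z₀ (20 * r) ∩ Om → |v p - v q| ≤ G * dist p q)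
    (ht : 0 ≤ z₀ 2 + 2 * r) {z : E3} (hz : z ∈ Om) (hd : dist z z₀ < r) :
    |v z - v z₀| ≤ G * (11 * r) := by
  have c0 : |z 0 - z₀ 0| < r := lt_of_le_of_lt (abs_coord_le z z₀ 0) hd
  have c1 : |z 1 - z₀ 1| < r := lt_of_le_of_lt (abs_coord_le z z₀ 1) hd
  have c2 : |z 2 - z₀ 2| < r := lt_of_le_of_lt (abs_coord_le z z₀ 2) hd
  set t' : ℝ := z₀ 2 + 4 * r with ht'
  have hz2 : z 2 < z₀ 2 + r := by rw [abs_lt] at c2; linarith [c2.2]
  have hz2' : z₀ 2 - r < z 2 := by rw [abs_lt] at c2; linarith [c2.1]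
  have a1 : |t' - z₀ 2| = 4 * r := by
    rw [ht', add_sub_cancel_left, abs_of_pos (by linarith)]
  have s1 : segment ℝ (pt (z 0) (z 1) (z 2)) (pt (z 0) (z 1) t') ⊆ ball z₀ (20 * r) ∩ Om := by
    apply vertical
    · rwa [← eq_pt]
    · linarith
    · linarith
    · linarith
  have s3 : segment ℝ (pt (z₀ 0) (z₀ 1) (z₀ 2)) (pt (z₀ 0) (z₀ 1) t') ⊆
      ball z₀ (20 * r) ∩ Om := by
    apply vertical
    · rwa [← eq_pt]
    · linarith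
    · simp only [sub_self, abs_zero, add_zero]; linarith
    · simp only [sub_self, abs_zero, zero_add]; linarith
  have s2 : segment ℝ (pt (z 0) (z 1) t') (pt (z₀ 0) (z₀ 1) t') ⊆ ball z₀ (20 * r) ∩ Om := by
    apply horizontal
    · linarith
    · exact (s1 (right_mem_segment ℝ _ _)).1
    · exact (s3 (right_mem_segment ℝ _ _)).1
  have i1 := hv _ _ s1
  have i2 := hv _ _ s2
  have i3 := hv _ _ s3
  have d1 : dist (pt (z 0) (z 1) (z 2)) (pt (z 0) (z 1) t') ≤ 5 * r := by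
    apply (dist_le_sum _ _).trans
    simp only [pt_0, pt_1, pt_2, sub_self, abs_zero, zero_add]
    rw [abs_of_nonpos (by linarith)]
    linarith
  have d2 : dist (pt (z 0) (z 1) t') (pt (z₀ 0) (z₀ 1) t') ≤ 2 * r := by
    apply (dist_le_sum _ _).trans
    simp only [pt_0, pt_1, pt_2, sub_self, abs_zero, add_zero]
    linarith
  have d3 : dist (pt (z₀ 0) (z₀ 1) (z₀ 2)) (pt (z₀ 0) (z₀ 1) t') ≤ 4 * r := by
    apply (dist_le_sum _ _).trans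
    simp only [pt_0, pt_1, pt_2, sub_self, abs_zero, zero_add]
    rw [abs_of_nonpos (by linarith)]
    linarith
  have m1 := mul_le_mul_of_nonneg_left d1 hG
  have m2 := mul_le_mul_of_nonneg_left d2 hG
  have m3 := mul_le_mul_of_nonneg_left d3 hG
  rw [← eq_pt z] at i1
  rw [← eq_pt z₀] at i3
  rw [← eq_pt z] at m1
  rw [← eq_pt z₀] at m3
  rw [abs_le] at *
  constructor
  · linarith [i1.1, i2.1, i3.2]
  · linarith [i1.2, i2.2, i3.1]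

/-- the offset path at a fixed height -/
def offset (N : ℕ) (x y x₀ y₀ t τ : ℝ) : E3 :=
  pt (x + τ * (x₀ - x))
    (zig N (x + τ * (x₀ - x)) + ((1 - τ) * (y - zig N x) + τ * (y₀ - zig N x₀))) t

lemma offset_zero (N : ℕ) (x y x₀ y₀ t : ℝ) : offset N x y x₀ y₀ t 0 = pt x y t := by
  unfold offset
  simp

lemma offset_one (N : ℕ) (x y x₀ y₀ t : ℝ) : offset N x y x₀ y₀ t 1 = pt x₀ y₀ t := by
  unfold offset
  simp

lemma offset_dist (N : ℕ) (x y x₀ y₀ t : ℝ) {K : ℝ}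
    (hK : ∀ τ ∈ Icc (0 : ℝ) 1, ∀ τ' ∈ Icc (0 : ℝ) 1,
      |zig N (x + τ * (x₀ - x)) - zig N (x + τ' * (x₀ - x))
        - (τ - τ') * (zig N x₀ - zig N x)| ≤ K * |τ - τ'|) :
    ∀ τ ∈ Icc (0 : ℝ) 1, ∀ τ' ∈ Icc (0 : ℝ) 1,
      dist (offset N x y x₀ y₀ t τ) (offset N x y x₀ y₀ t τ') ≤
        (|x - x₀| + |y - y₀| + K) * |τ - τ'| := by
  intro τ hτ τ' hτ'
  apply (dist_le_sum _ _).trans
  unfold offset
  simp only [pt_0, pt_1, pt_2, sub_self, abs_zero, add_zero]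
  have e1 : x + τ * (x₀ - x) - (x + τ' * (x₀ - x)) = (τ - τ') * (x₀ - x) := by ring
  rw [e1, abs_mul, abs_sub_comm x₀ x]
  have e2 : zig N (x + τ * (x₀ - x)) + ((1 - τ) * (y - zig N x) + τ * (y₀ - zig N x₀)) -
      (zig N (x + τ' * (x₀ - x)) + ((1 - τ') * (y - zig N x) + τ' * (y₀ - zig N x₀))) =
      (zig N (x + τ * (x₀ - x)) - zig N (x + τ' * (x₀ - x))
        - (τ - τ') * (zig N x₀ - zig N x)) + (τ - τ') * (y₀ - y) := by ring
  rw [e2]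
  have h3 := abs_add_le (zig N (x + τ * (x₀ - x)) - zig N (x + τ' * (x₀ - x))
        - (τ - τ') * (zig N x₀ - zig N x)) ((τ - τ') * (y₀ - y))
  rw [abs_mul, abs_sub_comm y₀ y] at h3
  have h4 := hK τ hτ τ' hτ'
  nlinarith

/-- the offset path stays in the piece -/
lemma offset_mem (N : ℕ) {x y t x₀ y₀ t₀ t' : ℝ} (h : pt x y t ∈ piece N)
    (h₀ : pt x₀ y₀ t₀ ∈ piece N) (h1 : t ≤ t') (h2 : t₀ ≤ t') {τ : ℝ} (hτ : τ ∈ Icc (0 : ℝ) 1) :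
    offset N x y x₀ y₀ t' τ ∈ piece N := by
  obtain ⟨a1, a2, a3, a4⟩ := h
  obtain ⟨b1, b2, b3, b4⟩ := h₀
  simp only [pt_0, pt_1, pt_2] at a1 a2 a3 a4 b1 b2 b3 b4
  unfold offset
  refine ⟨?_, ?_, ?_, ?_⟩
  · simp only [pt_0]
    nlinarith [mul_nonneg hτ.1 (sub_nonneg.2 b1.le), mul_nonneg (sub_nonneg.2 hτ.2)
      (sub_nonneg.2 a1.le), hτ.1, hτ.2]
  · simp only [pt_0]
    nlinarith [mul_nonneg hτ.1 (sub_nonneg.2 b2.le), mul_nonneg (sub_nonneg.2 hτ.2)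
      (sub_nonneg.2 a2.le), hτ.1, hτ.2]
  · simp only [pt_0, pt_1, pt_2, add_sub_cancel_left]
    have c1 : |y - zig N x| < ww N t' := lt_of_lt_of_le a3 (ww_mono N h1)
    have c2 : |y₀ - zig N x₀| < ww N t' := lt_of_lt_of_le b3 (ww_mono N h2)
    have c3 := abs_add_le ((1 - τ) * (y - zig N x)) (τ * (y₀ - zig N x₀))
    rw [abs_mul, abs_mul, abs_of_nonneg (sub_nonneg.2 hτ.2), abs_of_nonneg hτ.1] at c3
    apply lt_of_le_of_lt c3
    rcases eq_or_lt_of_le hτ.1 with h | h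
    · rw [← h]; simpa using c1
    · have := mul_lt_mul_of_pos_left c2 h
      have := mul_le_mul_of_nonneg_left c1.le (sub_nonneg.2 hτ.2)
      nlinarith
  · simp only [pt_2]
    linarith

/-- combined estimate below the half space -/
lemma small_combined {N : ℕ} (hr : 0 < r) (hG : 0 ≤ G) (hz₀ : z₀ ∈ piece N)
    (hv : ∀ p q, segment ℝ p q ⊆ ball z₀ (20 * r) ∩ Om → |v p - v q| ≤ G * dist p q)
    (ht : z₀ 2 + 2 * r < 0) {z : E3} (hz : z ∈ Om) (hd : dist z z₀ < r) {K : ℝ}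
    (hK : ∀ τ ∈ Icc (0 : ℝ) 1, ∀ τ' ∈ Icc (0 : ℝ) 1,
      |zig N (z 0 + τ * (z₀ 0 - z 0)) - zig N (z 0 + τ' * (z₀ 0 - z 0))
        - (τ - τ') * (zig N (z₀ 0) - zig N (z 0))| ≤ K * |τ - τ'|)
    (hball : ∀ τ ∈ Icc (0 : ℝ) 1,
      offset N (z 0) (z 1) (z₀ 0) (z₀ 1) (z₀ 2 + r) τ ∈ ball z₀ (20 * r)) :
    |v z - v z₀| ≤ G * (5 * r + K) := by
  obtain ⟨hzp, hz2⟩ := piece_unique hz₀ ht hr hz hd
  have c0 : |z 0 - z₀ 0| < r := lt_of_le_of_lt (abs_coord_le z z₀ 0) hd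
  have c1 : |z 1 - z₀ 1| < r := lt_of_le_of_lt (abs_coord_le z z₀ 1) hd
  have c2 : |z 2 - z₀ 2| < r := lt_of_le_of_lt (abs_coord_le z z₀ 2) hd
  have hz2' : z₀ 2 - r < z 2 := by rw [abs_lt] at c2; linarith [c2.1]
  have hK0 : 0 ≤ K := by
    have h := hK 0 ⟨le_rfl, zero_le_one⟩ 1 ⟨zero_le_one, le_rfl⟩
    have h1 := abs_nonneg (zig N (z 0 + 0 * (z₀ 0 - z 0)) - zig N (z 0 + 1 * (z₀ 0 - z 0))
        - (0 - 1) * (zig N (z₀ 0) - zig N (z 0)))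
    have h2 : K * |(0 : ℝ) - 1| = K := by norm_num
    rw [h2] at h
    linarith
  have hz₀Om : z₀ ∈ Om := mem_Om.2 (Or.inr ⟨N, hz₀⟩)
  set t' : ℝ := z₀ 2 + r with ht'
  have a1 : |t' - z₀ 2| = r := by
    rw [ht', add_sub_cancel_left, abs_of_pos (by linarith)]
  have s1 : segment ℝ (pt (z 0) (z 1) (z 2)) (pt (z 0) (z 1) t') ⊆ ball z₀ (20 * r) ∩ Om := by
    apply vertical
    · rwa [← eq_pt]
    · linarith
    · linarith
    · linarith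
  have s3 : segment ℝ (pt (z₀ 0) (z₀ 1) (z₀ 2)) (pt (z₀ 0) (z₀ 1) t') ⊆
      ball z₀ (20 * r) ∩ Om := by
    apply vertical
    · rwa [← eq_pt]
    · linarith
    · simp only [sub_self, abs_zero, add_zero]; linarith
    · simp only [sub_self, abs_zero, zero_add]; linarith
  have i1 := hv _ _ s1
  have i3 := hv _ _ s3
  have hW : IsOpen (ball z₀ (20 * r) ∩ Om) := isOpen_ball.inter isOpen_Om
  have hpz : pt (z 0) (z 1) (z 2) ∈ piece N := by rwa [← eq_pt]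
  have hpz₀ : pt (z₀ 0) (z₀ 1) (z₀ 2) ∈ piece N := by rwa [← eq_pt]
  have i2 := path_le hW hG hv (γ := offset N (z 0) (z 1) (z₀ 0) (z₀ 1) t')
    (M := |z 0 - z₀ 0| + |z 1 - z₀ 1| + K) (by positivity)
    (offset_dist N (z 0) (z 1) (z₀ 0) (z₀ 1) t' hK)
    (fun τ hτ => ⟨hball τ hτ, mem_Om.2 (Or.inr ⟨N, offset_mem N hpz hpz₀ (by linarith)
      (by linarith) hτ⟩)⟩)
  rw [offset_zero, offset_one] at i2
  have d1 : dist (pt (z 0) (z 1) (z 2)) (pt (z 0) (z 1) t') ≤ 2 * r := by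
    apply (dist_le_sum _ _).trans
    simp only [pt_0, pt_1, pt_2, sub_self, abs_zero, zero_add]
    rw [abs_of_nonpos (by linarith)]
    linarith
  have d3 : dist (pt (z₀ 0) (z₀ 1) (z₀ 2)) (pt (z₀ 0) (z₀ 1) t') ≤ r := by
    apply (dist_le_sum _ _).trans
    simp only [pt_0, pt_1, pt_2, sub_self, abs_zero, zero_add]
    rw [abs_of_nonpos (by linarith)]
    linarith
  have d2 : |z 0 - z₀ 0| + |z 1 - z₀ 1| + K ≤ 2 * r + K := by linarith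
  have m1 := mul_le_mul_of_nonneg_left d1 hG
  have m2 := mul_le_mul_of_nonneg_left d2 hG
  have m3 := mul_le_mul_of_nonneg_left d3 hG
  rw [← eq_pt z] at i1
  rw [← eq_pt z₀] at i3
  rw [← eq_pt z] at m1
  rw [← eq_pt z₀] at m3
  rw [abs_le] at i1 i2 i3
  rw [abs_le]
  constructor
  · nlinarith [i1.1, i2.1, i3.2]
  · nlinarith [i1.2, i2.2, i3.1]

lemma mem_uIcc_cases {x x₀ τ : ℝ} (hτ : τ ∈ Icc (0 : ℝ) 1) :
    min x x₀ ≤ x + τ * (x₀ - x) ∧ x + τ * (x₀ - x) ≤ max x x₀ := by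
  rcases le_total x x₀ with h | h
  · rw [min_eq_left h, max_eq_right h]
    constructor <;> nlinarith [hτ.1, hτ.2]
  · rw [min_eq_right h, max_eq_left h]
    constructor <;> nlinarith [hτ.1, hτ.2]

/-- small balls -/
lemma small_ball {N : ℕ} (hr : 0 < r) (hG : 0 ≤ G) (hz₀ : z₀ ∈ piece N)
    (hv : ∀ p q, segment ℝ p q ⊆ ball z₀ (20 * r) ∩ Om → |v p - v q| ≤ G * dist p q)
    (ht : z₀ 2 + 2 * r < 0) (hrN : r ≤ 1 / 8 ^ N) {z : E3} (hz : z ∈ Om)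
    (hd : dist z z₀ < r) :
    |v z - v z₀| ≤ G * (11 * r) := by
  have c0 : |z 0 - z₀ 0| < r := lt_of_le_of_lt (abs_coord_le z z₀ 0) hd
  have c1 : |z 1 - z₀ 1| < r := lt_of_le_of_lt (abs_coord_le z z₀ 1) hd
  have c2 : |z 2 - z₀ 2| < r := lt_of_le_of_lt (abs_coord_le z z₀ 2) hd
  obtain ⟨m, hm⟩ := zig_small N (s := min (z 0) (z₀ 0)) (t := max (z 0) (z₀ 0)) (by
    rw [max_sub_min_eq_abs']
    linarith)
  have hK : ∀ τ ∈ Icc (0 : ℝ) 1, ∀ τ' ∈ Icc (0 : ℝ) 1,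
      |zig N (z 0 + τ * (z₀ 0 - z 0)) - zig N (z 0 + τ' * (z₀ 0 - z 0))
        - (τ - τ') * (zig N (z₀ 0) - zig N (z 0))| ≤ (2 * |z 0 - z₀ 0|) * |τ - τ'| := by
    intro τ hτ τ' hτ'
    obtain ⟨p1, p2⟩ := mem_uIcc_cases (x := z 0) (x₀ := z₀ 0) hτ
    obtain ⟨q1, q2⟩ := mem_uIcc_cases (x := z 0) (x₀ := z₀ 0) hτ'
    have h1 := hm _ _ p1 p2 q1 q2
    have h2 := hm (z₀ 0) (z 0) (min_le_right _ _) (le_max_right _ _) (min_le_left _ _)
      (le_max_left _ _)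
    have e1 : z 0 + τ * (z₀ 0 - z 0) - (z 0 + τ' * (z₀ 0 - z 0)) = (τ - τ') * (z₀ 0 - z 0) := by
      ring
    rw [e1, abs_mul, abs_sub_comm (z₀ 0) (z 0)] at h1
    rw [abs_sub_comm (z₀ 0) (z 0)] at h2
    have e2 : zig N (z 0 + τ * (z₀ 0 - z 0)) - zig N (z 0 + τ' * (z₀ 0 - z 0))
        - (τ - τ') * (zig N (z₀ 0) - zig N (z 0)) =
        (zig N (z 0 + τ * (z₀ 0 - z 0)) - zig N (z 0 + τ' * (z₀ 0 - z 0)) -
          m * ((τ - τ') * (z₀ 0 - z 0))) -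
        (τ - τ') * (zig N (z₀ 0) - zig N (z 0) - m * (z₀ 0 - z 0)) := by ring
    rw [e2]
    have h3 := abs_sub (zig N (z 0 + τ * (z₀ 0 - z 0)) - zig N (z 0 + τ' * (z₀ 0 - z 0)) -
          m * ((τ - τ') * (z₀ 0 - z 0)))
        ((τ - τ') * (zig N (z₀ 0) - zig N (z 0) - m * (z₀ 0 - z 0)))
    rw [abs_mul (τ - τ')] at h3
    have h4 := mul_le_mul_of_nonneg_left h2 (abs_nonneg (τ - τ'))
    linarith
  have hball : ∀ τ ∈ Icc (0 : ℝ) 1,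
      offset N (z 0) (z 1) (z₀ 0) (z₀ 1) (z₀ 2 + r) τ ∈ ball z₀ (20 * r) := by
    intro τ hτ
    have h1 := offset_dist N (z 0) (z 1) (z₀ 0) (z₀ 1) (z₀ 2 + r) hK τ hτ 1
      ⟨zero_le_one, le_rfl⟩
    rw [offset_one] at h1
    have h2 : dist (pt (z₀ 0) (z₀ 1) (z₀ 2 + r)) z₀ ≤ r := by
      apply (dist_le_sum _ _).trans
      simp only [pt_0, pt_1, pt_2, sub_self, abs_zero, zero_add, add_sub_cancel_left]
      rw [abs_of_pos hr]
    have h3 : |τ - 1| ≤ 1 := by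
      rw [abs_le]; constructor <;> linarith [hτ.1, hτ.2]
    have h4 : (|z 0 - z₀ 0| + |z 1 - z₀ 1| + 2 * |z 0 - z₀ 0|) * |τ - 1| ≤ 4 * r := by
      have : (|z 0 - z₀ 0| + |z 1 - z₀ 1| + 2 * |z 0 - z₀ 0|) ≤ 4 * r := by linarith
      calc _ ≤ (|z 0 - z₀ 0| + |z 1 - z₀ 1| + 2 * |z 0 - z₀ 0|) * 1 :=
            mul_le_mul_of_nonneg_left h3 (by positivity)
        _ ≤ 4 * r := by linarith
    rw [mem_ball]
    have := dist_triangle (offset N (z 0) (z 1) (z₀ 0) (z₀ 1) (z₀ 2 + r) τ)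
      (pt (z₀ 0) (z₀ 1) (z₀ 2 + r)) z₀
    linarith
  have h := small_combined hr hG hz₀ hv ht hz hd hK hball
  have h5 : G * (5 * r + 2 * |z 0 - z₀ 0|) ≤ G * (11 * r) :=
    mul_le_mul_of_nonneg_left (by linarith) hG
  linarith

lemma bb_le (N : ℕ) {r : ℝ} (h : 1 / 8 ^ N ≤ r) : 2 * bb N ≤ r / (16 * ((N : ℝ) + 1)) := by
  unfold bb
  have h8 : (0 : ℝ) < 8 ^ N := by positivity
  have hN : (0 : ℝ) < (N : ℝ) + 1 := by positivity
  have e : 2 * (1 / (32 * ((N : ℝ) + 1) * 8 ^ N)) = (1 / 8 ^ N) / (16 * ((N : ℝ) + 1)) := by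
    field_simp
    norm_num
  rw [e]
  exact div_le_div_of_nonneg_right h (by positivity)

/-- medium balls -/
lemma medium_ball {N : ℕ} (hr : 0 < r) (hG : 0 ≤ G) (hz₀ : z₀ ∈ piece N)
    (hv : ∀ p q, segment ℝ p q ⊆ ball z₀ (20 * r) ∩ Om → |v p - v q| ≤ G * dist p q)
    (ht : z₀ 2 + 2 * r < 0) (hrN : 1 / 8 ^ N ≤ r) {z : E3} (hz : z ∈ Om)
    (hd : dist z z₀ < r) :
    |v z - v z₀| ≤ G * (5 * r + 2 * ((N : ℝ) + 1) * |z 0 - z₀ 0|) := by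
  have c0 : |z 0 - z₀ 0| < r := lt_of_le_of_lt (abs_coord_le z z₀ 0) hd
  have c1 : |z 1 - z₀ 1| < r := lt_of_le_of_lt (abs_coord_le z z₀ 1) hd
  obtain ⟨hzp, hz2⟩ := piece_unique hz₀ ht hr hz hd
  have hN0 : (0 : ℝ) ≤ N := Nat.cast_nonneg N
  have hK : ∀ τ ∈ Icc (0 : ℝ) 1, ∀ τ' ∈ Icc (0 : ℝ) 1,
      |zig N (z 0 + τ * (z₀ 0 - z 0)) - zig N (z 0 + τ' * (z₀ 0 - z 0))
        - (τ - τ') * (zig N (z₀ 0) - zig N (z 0))| ≤
      (2 * ((N : ℝ) + 1) * |z 0 - z₀ 0|) * |τ - τ'| := by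
    intro τ hτ τ' hτ'
    have h1 := zig_lip N (z 0 + τ * (z₀ 0 - z 0)) (z 0 + τ' * (z₀ 0 - z 0))
    have h2 := zig_lip N (z₀ 0) (z 0)
    have e1 : z 0 + τ * (z₀ 0 - z 0) - (z 0 + τ' * (z₀ 0 - z 0)) = (τ - τ') * (z₀ 0 - z 0) := by
      ring
    rw [e1, abs_mul, abs_sub_comm (z₀ 0) (z 0)] at h1
    rw [abs_sub_comm (z₀ 0) (z 0)] at h2
    have h3 := abs_sub (zig N (z 0 + τ * (z₀ 0 - z 0)) - zig N (z 0 + τ' * (z₀ 0 - z 0)))
        ((τ - τ') * (zig N (z₀ 0) - zig N (z 0)))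
    rw [abs_mul (τ - τ')] at h3
    have h4 := mul_le_mul_of_nonneg_left h2 (abs_nonneg (τ - τ'))
    have h5 : 0 ≤ |z 0 - z₀ 0| * |τ - τ'| := by positivity
    nlinarith
  have hb := bb_le N hrN
  have hb2 : 2 * bb N ≤ r := by
    refine hb.trans ?_
    apply div_le_self hr.le
    linarith
  have hw : |z 1 - zig N (z 0)| < bb N :=
    lt_of_lt_of_le hzp.2.2.1 (ww_le N (by linarith))
  have hw₀ : |z₀ 1 - zig N (z₀ 0)| < bb N :=
    lt_of_lt_of_le hz₀.2.2.1 (ww_le N (by linarith))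
  have hball : ∀ τ ∈ Icc (0 : ℝ) 1,
      offset N (z 0) (z 1) (z₀ 0) (z₀ 1) (z₀ 2 + r) τ ∈ ball z₀ (20 * r) := by
    intro τ hτ
    rw [mem_ball]
    apply lt_of_le_of_lt (dist_le_sum _ _)
    unfold offset
    simp only [pt_0, pt_1, pt_2, add_sub_cancel_left]
    rw [abs_of_pos hr]
    have h1 : |z 0 + τ * (z₀ 0 - z 0) - z₀ 0| ≤ r := by
      have e : z 0 + τ * (z₀ 0 - z 0) - z₀ 0 = (1 - τ) * (z 0 - z₀ 0) := by ring
      rw [e, abs_mul, abs_of_nonneg (sub_nonneg.2 hτ.2)]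
      nlinarith [abs_nonneg (z 0 - z₀ 0), hτ.1, hτ.2]
    have h2 : |zig N (z 0 + τ * (z₀ 0 - z 0)) - zig N (z₀ 0)| ≤
        |zig N (z 0) - zig N (z₀ 0)| + 3 * |z 0 - z₀ 0| := by
      apply zig_turning
      rcases le_total (z 0) (z₀ 0) with h | h
      · right
        constructor <;> nlinarith [hτ.1, hτ.2]
      · left
        constructor <;> nlinarith [hτ.1, hτ.2]
    have h3 : |zig N (z 0) - zig N (z₀ 0)| ≤ |z 1 - z₀ 1| + bb N + bb N := by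
      rw [abs_le] at *
      constructor <;> linarith [hw.le, hw₀.le, abs_lt.1 hw, abs_lt.1 hw₀, (abs_lt.1 hw).1,
        (abs_lt.1 hw).2, (abs_lt.1 hw₀).1, (abs_lt.1 hw₀).2, le_abs_self (z 1 - z₀ 1),
        neg_le_abs (z 1 - z₀ 1)]
    have h4 : |zig N (z 0 + τ * (z₀ 0 - z 0)) + ((1 - τ) * (z 1 - zig N (z 0)) +
        τ * (z₀ 1 - zig N (z₀ 0))) - z₀ 1| ≤
        |zig N (z 0 + τ * (z₀ 0 - z 0)) - zig N (z₀ 0)| + bb N + bb N := by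
      have e : zig N (z 0 + τ * (z₀ 0 - z 0)) + ((1 - τ) * (z 1 - zig N (z 0)) +
        τ * (z₀ 1 - zig N (z₀ 0))) - z₀ 1 =
        (zig N (z 0 + τ * (z₀ 0 - z 0)) - zig N (z₀ 0)) +
        (1 - τ) * ((z 1 - zig N (z 0)) - (z₀ 1 - zig N (z₀ 0))) := by ring
      rw [e]
      apply (abs_add_le _ _).trans
      rw [abs_mul, abs_of_nonneg (sub_nonneg.2 hτ.2)]
      have h5 : |z 1 - zig N (z 0) - (z₀ 1 - zig N (z₀ 0))| ≤ bb N + bb N := by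
        apply (abs_sub _ _).trans
        linarith
      have h6 : 0 ≤ |z 1 - zig N (z 0) - (z₀ 1 - zig N (z₀ 0))| := abs_nonneg _
      nlinarith [hτ.1, hτ.2]
    linarith
  exact small_combined hr hG hz₀ hv ht hz hd hK hball

end

end Pool.Agent.WPI
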