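import Mathlib
import Pool.Agent.Lib_helper93.WPI.Paths

/-!
# Volumes
-/

namespace Pool.Agent.WPI

open MeasureTheory Set Metric Filter Topology
open scoped ENNReal NNReal

noncomputable section

/-- coordinates as a measure preserving map -/
lemma coords_preserving :
    MeasurePreserving (fun z : E3 => ((z 2, (z 0, z 1)) : ℝ × ℝ × ℝ)) volume volume := by
  have h1 : MeasurePreserving (WithLp.ofLp : E3 → (Fin 3 → ℝ)) volume volume :=
    PiLp.volume_preserving_ofLp (Fin 3)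
  have h2 := volume_preserving_piFinSuccAbove (fun _ : Fin 3 => ℝ) 2
  have h3 : MeasurePreserving (MeasurableEquiv.finTwoArrow : (Fin 2 → ℝ) ≃ᵐ ℝ × ℝ)
    volume volume := volume_preserving_finTwoArrow ℝ
  have h4 : MeasurePreserving (Prod.map id (MeasurableEquiv.finTwoArrow : (Fin 2 → ℝ) ≃ᵐ ℝ × ℝ))
      (volume : Measure (ℝ × (Fin 2 → ℝ))) (volume : Measure (ℝ × ℝ × ℝ)) :=
    (MeasurePreserving.id volume).prod h3
  exact (h4.comp h2).comp h1

/-- slab around the graph -/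
def slab (N : ℕ) (I J : Set ℝ) (c : ℝ) : Set E3 :=
  {z | z 0 ∈ I ∧ z 2 ∈ J ∧ |z 1 - zig N (z 0)| < c}

lemma volume_slab (N : ℕ) {I J : Set ℝ} (hI : MeasurableSet I) (hJ : MeasurableSet J) (c : ℝ) :
    volume (slab N I J c) = volume J * (ENNReal.ofReal (2 * c) * volume I) := by
  have hz : Measurable (zig N) := (zig_continuous N).measurable
  set R : Set (ℝ × ℝ) := regionBetween (fun x => zig N x - c) (fun x => zig N x + c) I with hR
  have hRm : MeasurableSet R :=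
    measurableSet_regionBetween (hz.sub_const c) (hz.add_const c) hI
  have e : slab N I J c = (fun z : E3 => ((z 2, (z 0, z 1)) : ℝ × ℝ × ℝ)) ⁻¹' (J ×ˢ R) := by
    ext z
    simp only [slab, hR, regionBetween, mem_preimage, mem_prod, mem_Ioo, mem_ofPred_eq, abs_lt]
    constructor
    · rintro ⟨h1, h2, h3, h4⟩
      exact ⟨h2, h1, by linarith, by linarith⟩
    · rintro ⟨h1, h2, h3, h4⟩
      exact ⟨h2, h1, by linarith, by linarith⟩
  rw [e, coords_preserving.measure_preimage (hJ.prod hRm).nullMeasurableSet]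
  rw [Measure.volume_eq_prod, Measure.prod_prod]
  congr 1
  rw [hR, Measure.volume_eq_prod, volume_regionBetween_eq_lintegral
    (hz.sub_const c).aemeasurable (hz.add_const c).aemeasurable hI]
  have h1 : ∀ y, ((fun x => zig N x + c) - (fun x => zig N x - c)) y = 2 * c := by
    intro y
    simp only [Pi.sub_apply]
    ring
  simp only [h1]
  rw [lintegral_const, Measure.restrict_apply MeasurableSet.univ, univ_inter]

/-- the comparison of widths -/
lemma width_compare (N : ℕ) {r t₁ t₂ : ℝ} (hr : 1 / 8 ^ N ≤ r)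
    (ht : t₂ - t₁ = r / (4 * ((N : ℝ) + 1) ^ 2)) :
    512 * ((N : ℝ) + 1) ^ 5 * ww N t₁ ≤ ww N t₂ := by
  have e : ww N t₂ = ww N t₁ * Real.exp (Lam N * (t₂ - t₁)) := by
    unfold ww
    rw [mul_assoc, ← Real.exp_add]
    ring_nf
  rw [e]
  have hN : (0 : ℝ) < (N : ℝ) + 1 := by positivity
  have h8 : (0 : ℝ) < 8 ^ N := by positivity
  have h1 : 512 * ((N : ℝ) + 1) ^ 5 ≤ Lam N * (t₂ - t₁) := by
    rw [ht]
    unfold Lam
    have e2 : 2048 * ((N : ℝ) + 1) ^ 7 * 8 ^ N * (r / (4 * ((N : ℝ) + 1) ^ 2)) =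
        512 * ((N : ℝ) + 1) ^ 5 * (8 ^ N * r) := by
      field_simp
      ring
    rw [e2]
    have h3 : 1 ≤ 8 ^ N * r := by
      rw [div_le_iff₀ h8] at hr
      linarith
    have h4 : (0 : ℝ) ≤ 512 * ((N : ℝ) + 1) ^ 5 := by positivity
    nlinarith
  have h2 := Real.add_one_le_exp (Lam N * (t₂ - t₁))
  have h3 : 512 * ((N : ℝ) + 1) ^ 5 ≤ Real.exp (Lam N * (t₂ - t₁)) := by linarith
  calc 512 * ((N : ℝ) + 1) ^ 5 * ww N t₁ ≤ Real.exp (Lam N * (t₂ - t₁)) * ww N t₁ :=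
        mul_le_mul_of_nonneg_right h3 (ww_pos N t₁).le
    _ = _ := by ring

variable {z₀ : E3} {r : ℝ}

/-- upper bound for the volume of the bad part of the ball -/
lemma volume_bad_le {N : ℕ} (hr : 0 < r) (hz₀ : z₀ ∈ piece N) (ht : z₀ 2 + 2 * r < 0) :
    volume {z : E3 | z ∈ ball z₀ r ∩ Om ∧ r / ((N : ℝ) + 1) < |z 0 - z₀ 0|} ≤
      ENNReal.ofReal (2 * r) * (ENNReal.ofReal (2 * ww N (z₀ 2 + r - r / (2 * ((N : ℝ) + 1) ^ 2)))
        * ENNReal.ofReal (2 * r)) := by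
  set L : ℝ := (N : ℝ) + 1 with hL
  have hLpos : 0 < L := by positivity
  have hsub : {z : E3 | z ∈ ball z₀ r ∩ Om ∧ r / L < |z 0 - z₀ 0|} ⊆
      slab N (Icc (z₀ 0 - r) (z₀ 0 + r)) (Icc (z₀ 2 - r) (z₀ 2 + r))
        (ww N (z₀ 2 + r - r / (2 * L ^ 2))) := by
    rintro z ⟨⟨hzb, hz⟩, hbad⟩
    have hd : dist z z₀ < r := hzb
    have c0 : |z 0 - z₀ 0| < r := lt_of_le_of_lt (abs_coord_le z z₀ 0) hd
    have c2 : |z 2 - z₀ 2| < r := lt_of_le_of_lt (abs_coord_le z z₀ 2) hd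
    obtain ⟨hzp, hz2⟩ := piece_unique hz₀ ht hr hz hd
    rw [abs_lt] at c0 c2
    refine ⟨⟨by linarith [c0.1], by linarith [c0.2]⟩, ⟨by linarith [c2.1], by linarith [c2.2]⟩, ?_⟩
    apply lt_of_lt_of_le hzp.2.2.1
    apply ww_mono
    -- height estimate
    have h1 := dist_sq z z₀
    have h2 : dist z z₀ ^ 2 < r ^ 2 := by
      have := dist_nonneg (x := z) (y := z₀)
      nlinarith
    have h3 : (r / L) ^ 2 < (z 0 - z₀ 0) ^ 2 := by
      rw [← sq_abs (z 0 - z₀ 0)]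
      have : 0 < r / L := by positivity
      nlinarith
    have h4 : (z 2 - z₀ 2) ^ 2 ≤ (r - r / (2 * L ^ 2)) ^ 2 := by
      have e : (r - r / (2 * L ^ 2)) ^ 2 = r ^ 2 - (r / L) ^ 2 + (r / (2 * L ^ 2)) ^ 2 := by
        field_simp
        ring
      rw [e]
      have : 0 ≤ (r / (2 * L ^ 2)) ^ 2 := by positivity
      have := sq_nonneg (z 1 - z₀ 1)
      linarith
    have hL1 : 1 ≤ L := by
      have : (0 : ℝ) ≤ N := Nat.cast_nonneg N
      linarith
    have h5 : 0 ≤ r - r / (2 * L ^ 2) := by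
      have : r / (2 * L ^ 2) ≤ r := by
        apply div_le_self hr.le
        nlinarith
      linarith
    have h6 := abs_le_of_sq_le_sq h4 h5
    linarith [le_abs_self (z 2 - z₀ 2)]
  refine (measure_mono hsub).trans ?_
  rw [volume_slab N measurableSet_Icc measurableSet_Icc, Real.volume_Icc, Real.volume_Icc]
  apply le_of_eq
  congr 2
  · ring
  · congr 1; ring

/-- lower bound for the volume of the ball -/
lemma volume_ball_ge {N : ℕ} (hz₀ : z₀ ∈ piece N) (ht : z₀ 2 + 2 * r < 0)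
    (hrN : 1 / 8 ^ N ≤ r) :
    ENNReal.ofReal (r / (8 * ((N : ℝ) + 1) ^ 2)) *
      (ENNReal.ofReal (2 * ww N (z₀ 2 + r - r / (4 * ((N : ℝ) + 1) ^ 2))) *
        ENNReal.ofReal (r / (8 * ((N : ℝ) + 1) ^ 2))) ≤ volume (ball z₀ r ∩ Om) := by
  have h8 : (0 : ℝ) < 8 ^ N := by positivity
  have hr : 0 < r := lt_of_lt_of_le (by positivity) hrN
  have hNn : (0 : ℝ) ≤ N := Nat.cast_nonneg N
  have hbb := bb_le N hrN
  set L : ℝ := (N : ℝ) + 1 with hL
  have hL1 : 1 ≤ L := by linarith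
  have hLpos : 0 < L := by positivity
  have hL2 : 1 ≤ L ^ 2 := one_le_pow₀ hL1
  set η : ℝ := r / (8 * L ^ 2) with hη
  have hη0 : 0 < η := by positivity
  obtain ⟨a1, a2, a3, a4⟩ := hz₀
  -- the height interval and the horizontal interval
  have hr2 : r < L / 2 := by rw [← hL] at a4; linarith
  have hη1 : η ≤ 1 / 2 := by
    have hLL : L ≤ L ^ 2 := by nlinarith only [hL1]
    rw [hη, div_le_iff₀ (by positivity)]
    linarith
  have hJ : η ≤ min (z₀ 0 + η) (XX N + 1) - max (z₀ 0 - η) (XX N) := by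
    rcases le_total (z₀ 0 + η) (XX N + 1) with h | h
    · rw [min_eq_left h]
      have : max (z₀ 0 - η) (XX N) ≤ z₀ 0 := max_le (by linarith) a1.le
      linarith
    · rw [min_eq_right h]
      have : max (z₀ 0 - η) (XX N) ≤ XX N + 1 - η := max_le (by linarith) (by linarith)
      linarith
  have hsub : slab N (Ioo (max (z₀ 0 - η) (XX N)) (min (z₀ 0 + η) (XX N + 1)))
      (Ioo (z₀ 2 + r - r / (4 * L ^ 2)) (z₀ 2 + r - r / (8 * L ^ 2)))
      (ww N (z₀ 2 + r - r / (4 * L ^ 2))) ⊆ ball z₀ r ∩ Om := by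
    rintro z ⟨⟨p1, p2⟩, ⟨q1, q2⟩, hw⟩
    have p1a : z₀ 0 - η < z 0 := lt_of_le_of_lt (le_max_left _ _) p1
    have p1b : XX N < z 0 := lt_of_le_of_lt (le_max_right _ _) p1
    have p2a : z 0 < z₀ 0 + η := lt_of_lt_of_le p2 (min_le_left _ _)
    have p2b : z 0 < XX N + 1 := lt_of_lt_of_le p2 (min_le_right _ _)
    have hr4 : r / (4 * L ^ 2) ≤ r / 4 := by
      apply div_le_div_of_nonneg_left hr.le (by norm_num)
      linarith
    have hzp : z ∈ piece N := by
      refine ⟨p1b, p2b, lt_of_lt_of_le hw (ww_mono N q1.le), ?_⟩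
      linarith
    refine ⟨?_, mem_Om.2 (Or.inr ⟨N, hzp⟩)⟩
    rw [mem_ball]
    have hd := dist_sq z z₀
    apply lt_of_pow_lt_pow_left₀ 2 hr.le
    rw [hd]
    -- horizontal
    have hx : |z 0 - z₀ 0| < η := by rw [abs_lt]; constructor <;> linarith
    have hz2neg : z 2 < 0 := by
      have : 0 < r / (8 * L ^ 2) := hη0
      linarith
    have hy : |z 1 - z₀ 1| < 3 * r / (16 * L) := by
      have h1 : |z 1 - zig N (z 0)| < bb N := lt_of_lt_of_le hw (ww_le N (by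
        have : 0 < r / (4 * L ^ 2) := by positivity
        linarith))
      have h2 : |z₀ 1 - zig N (z₀ 0)| < bb N := lt_of_lt_of_le a3 (ww_le N (by linarith))
      have h3 := zig_lip N (z 0) (z₀ 0)
      have h4 : (N : ℝ) * |z 0 - z₀ 0| ≤ L * η := by
        apply mul_le_mul (by linarith) hx.le (abs_nonneg _) hLpos.le
      have h5 : L * η = 2 * r / (16 * L) := by
        rw [hη]; field_simp; norm_num
      have h6 : |z 1 - z₀ 1| ≤ |z 1 - zig N (z 0)| + |zig N (z 0) - zig N (z₀ 0)|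
          + |z₀ 1 - zig N (z₀ 0)| := by
        have e : z 1 - z₀ 1 = (z 1 - zig N (z 0)) + (zig N (z 0) - zig N (z₀ 0))
          - (z₀ 1 - zig N (z₀ 0)) := by ring
        rw [e]
        refine (abs_sub _ _).trans ?_
        linarith [abs_add_le (z 1 - zig N (z 0)) (zig N (z 0) - zig N (z₀ 0))]
      have e7 : 3 * r / (16 * L) = r / (16 * L) + 2 * r / (16 * L) := by ring
      rw [e7]
      linarith
    have hxs : (z 0 - z₀ 0) ^ 2 < η ^ 2 := by
      rw [← sq_abs (z 0 - z₀ 0)]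
      exact pow_lt_pow_left₀ hx (abs_nonneg _) two_ne_zero
    have hys : (z 1 - z₀ 1) ^ 2 < (3 * r / (16 * L)) ^ 2 := by
      rw [← sq_abs (z 1 - z₀ 1)]
      exact pow_lt_pow_left₀ hy (abs_nonneg _) two_ne_zero
    have hzs : (z 2 - z₀ 2) ^ 2 < (r - r / (8 * L ^ 2)) ^ 2 := by
      have h1 : 0 < z 2 - z₀ 2 := by linarith
      have h2 : z 2 - z₀ 2 < r - r / (8 * L ^ 2) := by linarith
      exact pow_lt_pow_left₀ h2 h1.le two_ne_zero
    have hfin : η ^ 2 + (3 * r / (16 * L)) ^ 2 + (r - r / (8 * L ^ 2)) ^ 2 ≤ r ^ 2 := by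
      have e1 : r ^ 2 - (η ^ 2 + (3 * r / (16 * L)) ^ 2 + (r - r / (8 * L ^ 2)) ^ 2) =
          r ^ 2 / (256 * L ^ 4) * (64 * L ^ 2 - 8 - 9 * L ^ 2) := by
        rw [hη]
        field_simp
        ring
      have h2 : 0 ≤ r ^ 2 / (256 * L ^ 4) * (64 * L ^ 2 - 8 - 9 * L ^ 2) := by
        apply mul_nonneg (by positivity)
        linarith
      linarith
    linarith
  refine le_trans ?_ (measure_mono hsub)
  rw [volume_slab N measurableSet_Ioo measurableSet_Ioo, Real.volume_Ioo, Real.volume_Ioo]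
  have e1 : z₀ 2 + r - r / (8 * L ^ 2) - (z₀ 2 + r - r / (4 * L ^ 2)) = r / (8 * L ^ 2) := by
    field_simp
    ring
  rw [e1]
  gcongr

/-- the bad part is negligible -/
lemma bad_negligible {N : ℕ} (hz₀ : z₀ ∈ piece N) (ht : z₀ 2 + 2 * r < 0)
    (hrN : 1 / 8 ^ N ≤ r) :
    ENNReal.ofReal (2 * ((N : ℝ) + 1)) *
      volume {z : E3 | z ∈ ball z₀ r ∩ Om ∧ r / ((N : ℝ) + 1) < |z 0 - z₀ 0|} ≤
        volume (ball z₀ r ∩ Om) := by
  have h8 : (0 : ℝ) < 8 ^ N := by positivity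
  have hr : 0 < r := lt_of_lt_of_le (by positivity) hrN
  refine le_trans ?_ (volume_ball_ge hz₀ ht hrN)
  refine le_trans (mul_le_mul_right (volume_bad_le hr hz₀ ht) _) ?_
  set L : ℝ := (N : ℝ) + 1 with hL
  have hLpos : 0 < L := by positivity
  have hw1 := ww_pos N (z₀ 2 + r - r / (2 * L ^ 2))
  have hw2 := ww_pos N (z₀ 2 + r - r / (4 * L ^ 2))
  rw [← ENNReal.ofReal_mul (by positivity), ← ENNReal.ofReal_mul (by positivity),
    ← ENNReal.ofReal_mul (by positivity), ← ENNReal.ofReal_mul (by positivity),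
    ← ENNReal.ofReal_mul (by positivity)]
  apply ENNReal.ofReal_le_ofReal
  have hc := width_compare N (t₁ := z₀ 2 + r - r / (2 * L ^ 2))
    (t₂ := z₀ 2 + r - r / (4 * L ^ 2)) hrN (by rw [← hL]; field_simp; ring)
  rw [← hL] at hc
  have e1 : 2 * L * (2 * r * (2 * ww N (z₀ 2 + r - r / (2 * L ^ 2)) * (2 * r))) =
      r ^ 2 / (32 * L ^ 4) * (512 * L ^ 5 * ww N (z₀ 2 + r - r / (2 * L ^ 2))) := by
    generalize ww N (z₀ 2 + r - r / (2 * L ^ 2)) = a
    field_simp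
    ring
  have e2 : r / (8 * L ^ 2) * (2 * ww N (z₀ 2 + r - r / (4 * L ^ 2)) * (r / (8 * L ^ 2))) =
      r ^ 2 / (32 * L ^ 4) * ww N (z₀ 2 + r - r / (4 * L ^ 2)) := by
    generalize ww N (z₀ 2 + r - r / (4 * L ^ 2)) = a
    field_simp
    ring
  rw [e1, e2]
  exact mul_le_mul_of_nonneg_left hc (by positivity)

end

end Pool.Agent.WPI
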