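import Mathlib
import Pool.Agent.Lib_helper93.WPI.Volume

/-!
# The weak (1,∞)-Poincaré inequality holds in `Om`
-/

namespace Pool.Agent.WPI

open MeasureTheory Set Metric Filter Topology
open scoped ENNReal NNReal

noncomputable section

lemma avg_bound {α : Type*} [MeasurableSpace α] {μ : Measure α} [IsFiniteMeasure μ]
    (hμ : μ ≠ 0) {u : α → ℝ} (hu : AEStronglyMeasurable u μ) (c : ℝ) {K : ℝ≥0∞} (hK : K ≠ ∞)
    (h : ∫⁻ y, ‖u y - c‖ₑ ∂μ ≤ K * μ univ) :
    ⨍⁻ y, ‖u y - ⨍ z, u z ∂μ‖ₑ ∂μ ≤ 2 * K := by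
  have hμ0 : μ univ ≠ 0 := by
    intro h0; exact hμ (Measure.measure_univ_eq_zero.1 h0)
  have hμt : μ univ ≠ ∞ := measure_ne_top μ univ
  set ν : Measure α := (μ univ)⁻¹ • μ with hν
  have hprob : IsProbabilityMeasure ν := by
    refine ⟨?_⟩
    rw [hν, Measure.smul_apply, smul_eq_mul, ENNReal.inv_mul_cancel hμ0 hμt]
  have huν : AEStronglyMeasurable u ν := hu.mono_ac (Measure.absolutelyContinuous_of_le_smul
    (c := (μ univ)⁻¹) le_rfl)
  have h1 : ∫⁻ y, ‖u y - c‖ₑ ∂ν ≤ K := by
    rw [hν, lintegral_smul_measure, smul_eq_mul]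
    calc (μ univ)⁻¹ * ∫⁻ y, ‖u y - c‖ₑ ∂μ ≤ (μ univ)⁻¹ * (K * μ univ) := by gcongr
      _ = K * ((μ univ)⁻¹ * μ univ) := by ring
      _ = K := by rw [ENNReal.inv_mul_cancel hμ0 hμt, mul_one]
  have hint : Integrable (fun y => u y - c) ν :=
    ⟨huν.sub aestronglyMeasurable_const, lt_of_le_of_lt h1 hK.lt_top⟩
  have hintu : Integrable u ν := by
    have := hint.add (integrable_const c)
    refine this.congr (Eventually.of_forall fun y => ?_)
    simp
  have e1 : ⨍ z, u z ∂μ = ∫ z, u z ∂ν := rfl
  have e2 : ⨍⁻ y, ‖u y - ⨍ z, u z ∂μ‖ₑ ∂μ = ∫⁻ y, ‖u y - ∫ z, u z ∂ν‖ₑ ∂ν := rfl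
  rw [e2]
  set m : ℝ := ∫ z, u z ∂ν with hm
  have h2 : ‖c - m‖ₑ ≤ K := by
    have h3 : ∫ y, (u y - c) ∂ν = m - c := by
      rw [integral_sub hintu (integrable_const c), integral_const, probReal_univ, one_smul]
    have h4 := enorm_integral_le_lintegral_enorm (μ := ν) (fun y => u y - c)
    rw [h3] at h4
    rw [← enorm_neg, neg_sub]
    exact h4.trans h1
  calc ∫⁻ y, ‖u y - m‖ₑ ∂ν ≤ ∫⁻ y, (‖u y - c‖ₑ + ‖c - m‖ₑ) ∂ν := by
        apply lintegral_mono
        intro y
        have e : u y - m = (u y - c) + (c - m) := by ring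
        simp only
        rw [e]
        exact enorm_add_le _ _
    _ = ∫⁻ y, ‖u y - c‖ₑ ∂ν + ‖c - m‖ₑ := by
        rw [lintegral_add_right _ measurable_const, lintegral_const, measure_univ, mul_one]
    _ ≤ K + K := add_le_add h1 h2
    _ = 2 * K := by ring

variable {z₀ : E3} {r G : ℝ} {v : E3 → ℝ}

/-- oscillation estimate in all balls -/
lemma osc_bound (hr : 0 < r) (hG : 0 ≤ G) (hz₀ : z₀ ∈ Om)
    (hv : ∀ p q, segment ℝ p q ⊆ ball z₀ (20 * r) ∩ Om → |v p - v q| ≤ G * dist p q) :
    ∫⁻ z in ball z₀ r ∩ Om, ‖v z - v z₀‖ₑ ≤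
      ENNReal.ofReal (11 * G * r) * volume (ball z₀ r ∩ Om) := by
  have hBm : MeasurableSet (ball z₀ r ∩ Om) := measurableSet_ball.inter isOpen_Om.measurableSet
  have unif : (∀ z ∈ ball z₀ r ∩ Om, |v z - v z₀| ≤ G * (11 * r)) →
      ∫⁻ z in ball z₀ r ∩ Om, ‖v z - v z₀‖ₑ ≤
      ENNReal.ofReal (11 * G * r) * volume (ball z₀ r ∩ Om) := by
    intro h
    calc ∫⁻ z in ball z₀ r ∩ Om, ‖v z - v z₀‖ₑ ≤
        ∫⁻ z in ball z₀ r ∩ Om, ENNReal.ofReal (11 * G * r) := by
          apply setLIntegral_mono' hBm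
          intro z hz
          rw [Real.enorm_eq_ofReal_abs]
          apply ENNReal.ofReal_le_ofReal
          have := h z hz
          linarith
      _ = _ := by rw [setLIntegral_const]
  by_cases ht : 0 ≤ z₀ 2 + 2 * r
  · apply unif
    intro z hz
    exact large_ball hr hG hz₀ hv ht hz.2 hz.1
  · push Not at ht
    obtain ⟨N, hN⟩ : ∃ N, z₀ ∈ piece N := by
      rcases mem_Om.1 hz₀ with h | h
      · exfalso; linarith
      · exact h
    rcases le_total r (1 / 8 ^ N) with hrN | hrN
    · apply unif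
      intro z hz
      exact small_ball hr hG hN hv ht hrN hz.2 hz.1
    · set L : ℝ := (N : ℝ) + 1 with hL
      have hLpos : 0 < L := by positivity
      set A : Set E3 := {z : E3 | z ∈ ball z₀ r ∩ Om ∧ r / ((N : ℝ) + 1) < |z 0 - z₀ 0|} with hA
      have hAm : MeasurableSet A := by
        have hc : Continuous (fun z : E3 => |z 0 - z₀ 0|) := by fun_prop
        have e : A = (ball z₀ r ∩ Om) ∩ {z : E3 | r / ((N : ℝ) + 1) < |z 0 - z₀ 0|} := rfl
        rw [e]
        exact hBm.inter (measurableSet_lt measurable_const hc.measurable)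
      have hAB : A ⊆ ball z₀ r ∩ Om := fun z hz => hz.1
      have hb := bad_negligible hN ht hrN
      calc ∫⁻ z in ball z₀ r ∩ Om, ‖v z - v z₀‖ₑ ≤
          ∫⁻ z in ball z₀ r ∩ Om, (ENNReal.ofReal (7 * G * r) +
            A.indicator (fun _ => ENNReal.ofReal (G * r) * ENNReal.ofReal (2 * L)) z) := by
            apply setLIntegral_mono' hBm
            intro z hz
            rw [Real.enorm_eq_ofReal_abs]
            have h1 := medium_ball hr hG hN hv ht hrN hz.2 hz.1
            have hd : dist z z₀ < r := hz.1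
            have c0 : |z 0 - z₀ 0| < r := lt_of_le_of_lt (abs_coord_le z z₀ 0) hd
            by_cases hzA : z ∈ A
            · rw [indicator_of_mem hzA, ← ENNReal.ofReal_mul (by positivity),
                ← ENNReal.ofReal_add (by positivity) (by positivity)]
              apply ENNReal.ofReal_le_ofReal
              refine h1.trans ?_
              have h2 : 2 * ((N : ℝ) + 1) * |z 0 - z₀ 0| ≤ 2 * L * r := by
                rw [hL]; gcongr
              have h3 : G * (5 * r + 2 * ((N : ℝ) + 1) * |z 0 - z₀ 0|) ≤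
                  G * (5 * r + 2 * L * r) := by gcongr
              nlinarith [mul_nonneg hG hr.le]
            · rw [indicator_of_notMem hzA, add_zero]
              apply ENNReal.ofReal_le_ofReal
              refine h1.trans ?_
              have h2 : |z 0 - z₀ 0| ≤ r / L := by
                by_contra hcon
                push Not at hcon
                exact hzA ⟨hz, hcon⟩
              have h3 : 2 * ((N : ℝ) + 1) * |z 0 - z₀ 0| ≤ 2 * r := by
                have h4 : 2 * L * |z 0 - z₀ 0| ≤ 2 * L * (r / L) := by gcongr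
                have h5 : 2 * L * (r / L) = 2 * r := by field_simp
                rw [← hL]; linarith
              have h6 : G * (5 * r + 2 * ((N : ℝ) + 1) * |z 0 - z₀ 0|) ≤
                  G * (5 * r + 2 * r) := by gcongr
              nlinarith [mul_nonneg hG hr.le]
        _ = ENNReal.ofReal (7 * G * r) * volume (ball z₀ r ∩ Om) +
            ENNReal.ofReal (G * r) * ENNReal.ofReal (2 * L) * volume A := by
            rw [lintegral_add_left measurable_const, setLIntegral_const,
              lintegral_indicator hAm, Measure.restrict_restrict hAm, inter_eq_left.2 hAB,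
              setLIntegral_const]
        _ ≤ ENNReal.ofReal (7 * G * r) * volume (ball z₀ r ∩ Om) +
            ENNReal.ofReal (G * r) * volume (ball z₀ r ∩ Om) := by
            rw [mul_assoc (ENNReal.ofReal (G * r))]
            gcongr
        _ = ENNReal.ofReal (8 * G * r) * volume (ball z₀ r ∩ Om) := by
            rw [← add_mul, ← ENNReal.ofReal_add (by positivity) (by positivity)]
            congr 2
            ring
        _ ≤ _ := by
            gcongr
            norm_num

theorem weakPoincare_Om : WeakPoincare Om := by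
  refine ⟨22, 20, by norm_num, by norm_num, ?_⟩
  intro x hx r hr u g hu hg
  have hBo : IsOpen (ball x r ∩ Om) := isOpen_ball.inter isOpen_Om
  have hWo : IsOpen (ball x (20 * r) ∩ Om) := isOpen_ball.inter isOpen_Om
  have hBpos : 0 < volume (ball x r ∩ Om) := hBo.measure_pos _ ⟨x, mem_ball_self hr, hx⟩
  have hBfin : volume (ball x r ∩ Om) < ∞ :=
    lt_of_le_of_lt (measure_mono inter_subset_left) measure_ball_lt_top
  by_cases hinf : essSup g (volume.restrict (ball x (20 * r) ∩ Om)) = ∞
  · rw [hinf, ENNReal.mul_top]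
    · exact le_top
    · rw [Ne, ENNReal.ofReal_eq_zero, not_le]
      positivity
  · set G : ℝ≥0 := (essSup g (volume.restrict (ball x (20 * r) ∩ Om))).toNNReal with hG
    have hGe : (G : ℝ≥0∞) = essSup g (volume.restrict (ball x (20 * r) ∩ Om)) :=
      ENNReal.coe_toNNReal hinf
    have hgG : ∀ᵐ y ∂(volume.restrict (ball x (20 * r) ∩ Om)), g y ≤ G := by
      rw [hGe]
      exact ENNReal.ae_le_essSup g
    obtain ⟨v, hv1, hv2⟩ := exists_rep hWo inter_subset_right hg hgG
    have hosc := osc_bound hr G.coe_nonneg hx hv2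
    have hBW : ball x r ∩ Om ⊆ ball x (20 * r) ∩ Om :=
      inter_subset_inter_left _ (ball_subset_ball (by linarith))
    have hv3 : ∀ᵐ y ∂(volume.restrict (ball x r ∩ Om)), u y = v y :=
      ae_restrict_of_ae_restrict_of_subset hBW hv1
    have hint : ∫⁻ z in ball x r ∩ Om, ‖u z - v x‖ₑ ≤
        ENNReal.ofReal (11 * G * r) * (volume.restrict (ball x r ∩ Om)) univ := by
      rw [Measure.restrict_apply_univ]
      refine le_trans (le_of_eq ?_) hosc
      apply lintegral_congr_ae
      filter_upwards [hv3] with y hy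
      rw [hy]
    have hfin : IsFiniteMeasure (volume.restrict (ball x r ∩ Om)) :=
      ⟨by rw [Measure.restrict_apply_univ]; exact hBfin⟩
    have hne : volume.restrict (ball x r ∩ Om) ≠ 0 := by
      intro h
      rw [Measure.restrict_eq_zero] at h
      exact hBpos.ne' h
    have hmeas : AEStronglyMeasurable u (volume.restrict (ball x r ∩ Om)) :=
      hu.aestronglyMeasurable.mono_measure (Measure.restrict_mono inter_subset_right le_rfl)
    have hfinal := avg_bound hne hmeas (v x) ENNReal.ofReal_ne_top hint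
    refine hfinal.trans (le_of_eq ?_)
    rw [← hGe]
    rw [show (2 : ℝ≥0∞) = ENNReal.ofReal 2 by simp, ← ENNReal.ofReal_mul (by norm_num),
      ← ENNReal.ofReal_coe_nnreal, ← ENNReal.ofReal_mul (by positivity)]
    congr 1
    ring

end

end Pool.Agent.WPI
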