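import Mathlib
import Pool.Agent.Lib_helper93.WPI.Poincare

/-!
# `Om` is not quasiconvex
-/

namespace Pool.Agent.WPI

open MeasureTheory Set Metric Filter Topology
open scoped ENNReal NNReal

noncomputable section

lemma XX_int (N : ℕ) : XX N = ((2 * ((N : ℤ) + 1) ^ 2 : ℤ) : ℝ) := by
  unfold XX
  push_cast
  ring

lemma zig_XX (N : ℕ) (v : ℝ) : zig N (XX N + v) = zig N v := by
  rw [XX_int, add_comm, zig_add_int]

lemma piece_not_int {N : ℕ} {z : E3} (hz : z ∈ piece N) (k : ℤ) : z 0 ≠ (k : ℝ) := by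
  intro h
  obtain ⟨h1, h2, _, _⟩ := hz
  rw [h, XX_int] at h1 h2
  have h1' : 2 * ((N : ℤ) + 1) ^ 2 < k := Int.cast_lt.1 h1
  have h3 : ((k : ℤ) : ℝ) < ((2 * ((N : ℤ) + 1) ^ 2 + 1 : ℤ) : ℝ) := by
    push_cast
    push_cast at h2
    exact h2
  have h2' : k < 2 * ((N : ℤ) + 1) ^ 2 + 1 := Int.cast_lt.1 h3
  omega

/-- first hitting time -/
def hit (a : ℝ → ℝ) (c : ℝ) : ℝ := sInf {t | t ∈ Icc (0 : ℝ) 1 ∧ c ≤ a t}

lemma hit_spec {a : ℝ → ℝ} (ha : ContinuousOn a (Icc 0 1)) {c : ℝ} (h0 : a 0 ≤ c)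
    (h1 : c ≤ a 1) : hit a c ∈ Icc (0 : ℝ) 1 ∧ a (hit a c) = c := by
  set S : Set ℝ := {t | t ∈ Icc (0 : ℝ) 1 ∧ c ≤ a t} with hS
  have hne : S.Nonempty := ⟨1, ⟨zero_le_one, le_rfl⟩, h1⟩
  have hbdd : BddBelow S := ⟨0, fun t ht => ht.1.1⟩
  have hclosed : IsClosed S := by
    have : S = Icc (0 : ℝ) 1 ∩ a ⁻¹' (Ici c) := rfl
    rw [this]
    exact ha.preimage_isClosed_of_isClosed isClosed_Icc isClosed_Ici
  have hmem : hit a c ∈ S := hclosed.csInf_mem hne hbdd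
  refine ⟨hmem.1, ?_⟩
  by_contra hcon
  have hlt : c < a (hit a c) := lt_of_le_of_ne hmem.2 (Ne.symm hcon)
  have hsub : Icc 0 (hit a c) ⊆ Icc (0 : ℝ) 1 := Icc_subset_Icc le_rfl hmem.1.2
  have hivt := intermediate_value_Icc hmem.1.1 (ha.mono hsub)
  obtain ⟨s, hs, hsc⟩ := hivt ⟨h0, hlt.le⟩
  have hsS : s ∈ S := ⟨hsub hs, hsc.ge⟩
  have hle : hit a c ≤ s := csInf_le hbdd hsS
  have heq : s = hit a c := le_antisymm hs.2 hle
  rw [heq] at hsc
  exact hcon hsc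

lemma hit_mono {a : ℝ → ℝ} {c c' : ℝ} (h1 : c' ≤ a 1) (hcc : c ≤ c') :
    hit a c ≤ hit a c' := by
  apply csInf_le_csInf
  · exact ⟨0, fun t ht => ht.1.1⟩
  · exact ⟨1, ⟨zero_le_one, le_rfl⟩, h1⟩
  · intro t ht
    exact ⟨ht.1, hcc.trans ht.2⟩

/-- a curve in the piece `N` between its ends is long -/
lemma curve_long {N : ℕ} (hN : 1 ≤ N) {γ : ℝ → E3} (hc : ContinuousOn γ (Icc 0 1))
    (hp : ∀ t ∈ Icc (0 : ℝ) 1, γ t ∈ piece N) (hneg : ∀ t ∈ Icc (0 : ℝ) 1, γ t 2 ≤ 0)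
    (h0 : γ 0 0 = XX N + 1 / 8 ^ N) (h1 : γ 1 0 = XX N + (8 ^ N - 1) / 8 ^ N) {K : ℝ}
    (hK : 0 ≤ K) (hlen : eVariationOn γ (Icc 0 1) ≤ ENNReal.ofReal K) :
    gridVar N 0 - 3 ≤ K := by
  have h8 : (0 : ℝ) < 8 ^ N := by positivity
  have h8n : 8 ≤ 8 ^ N := by
    calc 8 = 8 ^ 1 := by norm_num
      _ ≤ 8 ^ N := Nat.pow_le_pow_right (by norm_num) hN
  have ha : ContinuousOn (fun t => γ t 0) (Icc 0 1) := by
    have : Continuous (fun z : E3 => z 0) := by fun_prop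
    exact this.comp_continuousOn hc
  set a : ℝ → ℝ := fun t => γ t 0 with hadef
  set xg : ℕ → ℝ := fun i => XX N + (i : ℝ) / 8 ^ N with hxg
  have hxmono : ∀ i j : ℕ, i ≤ j → xg i ≤ xg j := by
    intro i j hij
    have : (i : ℝ) ≤ j := by exact_mod_cast hij
    simp only [hxg]
    gcongr
  have hx0 : a 0 = xg 1 := by simp [hadef, hxg, h0]
  have hx1 : a 1 = xg (8 ^ N - 1) := by
    simp only [hadef, hxg, h1]
    rw [Nat.cast_sub (by omega)]
    push_cast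
    rfl
  set τ : ℕ → ℝ := fun i => hit a (xg i) with hτ
  have hτspec : ∀ i ∈ Icc 1 (8 ^ N - 1), τ i ∈ Icc (0 : ℝ) 1 ∧ a (τ i) = xg i := by
    intro i hi
    apply hit_spec ha
    · rw [hx0]; exact hxmono _ _ hi.1
    · rw [hx1]; exact hxmono _ _ hi.2
  have hτmono : MonotoneOn τ (Icc 1 (8 ^ N - 1)) := by
    intro i hi j hj hij
    apply hit_mono
    · rw [hx1]; exact hxmono _ _ hj.2
    · exact hxmono _ _ hij
  have hsum := eVariationOn.sum_le_of_monotoneOn_Icc (f := γ) (s := Icc (0 : ℝ) 1) hτmono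
    (fun i hi => (hτspec i hi).1)
  have hsum2 := hsum.trans hlen
  -- termwise bound
  have hterm : ∀ i : ℕ, i ∈ Finset.Ico 1 (8 ^ N - 1) →
      |0 / 8 ^ N + (zig N (((i : ℝ) + 1) / 8 ^ N) - zig N ((i : ℝ) / 8 ^ N))| - 2 * bb N ≤
        dist (γ (τ (i + 1))) (γ (τ i)) := by
    intro i hi
    rw [Finset.mem_Ico] at hi
    obtain ⟨m1, e1⟩ := hτspec i ⟨hi.1, by omega⟩
    obtain ⟨m2, e2⟩ := hτspec (i + 1) ⟨by omega, by omega⟩
    have p1 := (hp _ m1).2.2.1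
    have p2 := (hp _ m2).2.2.1
    have q1 := lt_of_lt_of_le p1 (ww_le N (hneg _ m1))
    have q2 := lt_of_lt_of_le p2 (ww_le N (hneg _ m2))
    have e1' : γ (τ i) 0 = XX N + (i : ℝ) / 8 ^ N := e1
    have e2' : γ (τ (i + 1)) 0 = XX N + ((i : ℝ) + 1) / 8 ^ N := by
      have := e2
      simp only [hadef, hxg] at this
      rw [this]
      push_cast
      rfl
    rw [e1', zig_XX] at q1
    rw [e2', zig_XX] at q2
    have hc1 := abs_coord_le (γ (τ (i + 1))) (γ (τ i)) 1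
    rw [zero_div, zero_add]
    have h3 : |zig N (((i : ℝ) + 1) / 8 ^ N) - zig N ((i : ℝ) / 8 ^ N)| ≤
        |γ (τ (i + 1)) 1 - γ (τ i) 1| + |γ (τ (i + 1)) 1 - zig N (((i : ℝ) + 1) / 8 ^ N)| +
        |γ (τ i) 1 - zig N ((i : ℝ) / 8 ^ N)| := by
      have e : zig N (((i : ℝ) + 1) / 8 ^ N) - zig N ((i : ℝ) / 8 ^ N) =
        ((γ (τ (i + 1)) 1 - γ (τ i) 1) - (γ (τ (i + 1)) 1 - zig N (((i : ℝ) + 1) / 8 ^ N))) +
        (γ (τ i) 1 - zig N ((i : ℝ) / 8 ^ N)) := by ring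
      rw [e]
      refine (abs_add_le _ _).trans ?_
      have := abs_sub (γ (τ (i + 1)) 1 - γ (τ i) 1)
        (γ (τ (i + 1)) 1 - zig N (((i : ℝ) + 1) / 8 ^ N))
      linarith
    linarith
  have hsum3 : ∑ i ∈ Finset.Ico 1 (8 ^ N - 1), dist (γ (τ (i + 1))) (γ (τ i)) ≤ K := by
    have e : ∑ i ∈ Finset.Ico 1 (8 ^ N - 1), edist (γ (τ (i + 1))) (γ (τ i)) =
        ENNReal.ofReal (∑ i ∈ Finset.Ico 1 (8 ^ N - 1), dist (γ (τ (i + 1))) (γ (τ i))) := by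
      rw [ENNReal.ofReal_sum_of_nonneg (fun _ _ => dist_nonneg)]
      apply Finset.sum_congr rfl
      intro i _
      rw [edist_dist]
    rw [e] at hsum2
    exact (ENNReal.ofReal_le_ofReal_iff hK).1 hsum2
  have hsum4 := (Finset.sum_le_sum hterm).trans hsum3
  rw [Finset.sum_sub_distrib, Finset.sum_const, Nat.card_Ico, nsmul_eq_mul] at hsum4
  -- splitting of the grid variation
  set F : ℕ → ℝ := fun i =>
    |0 / 8 ^ N + (zig N (((i : ℝ) + 1) / 8 ^ N) - zig N ((i : ℝ) / 8 ^ N))| with hF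
  have hFle : ∀ i, F i ≤ 1 := by
    intro i
    simp only [hF]
    rw [zero_div, zero_add]
    have h2 := zig_lip N (((i : ℝ) + 1) / 8 ^ N) ((i : ℝ) / 8 ^ N)
    have e : ((i : ℝ) + 1) / 8 ^ N - (i : ℝ) / 8 ^ N = 1 / 8 ^ N := by ring
    rw [e, abs_of_pos (by positivity : (0 : ℝ) < 1 / 8 ^ N)] at h2
    refine h2.trans ?_
    rw [mul_one_div, div_le_one h8]
    have : N < 8 ^ N := Nat.lt_pow_self (by norm_num)
    exact_mod_cast this.le
  have hgrid : gridVar N 0 = F 0 + ∑ i ∈ Finset.Ico 1 (8 ^ N - 1), F i + F (8 ^ N - 1) := by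
    unfold gridVar
    have hn : 8 ^ N = (8 ^ N - 1) + 1 := by omega
    have e1 : ∑ i ∈ Finset.range (8 ^ N), F i =
        ∑ i ∈ Finset.range (8 ^ N - 1), F i + F (8 ^ N - 1) := by
      conv_lhs => rw [hn]
      rw [Finset.sum_range_succ]
    have e2 : ∑ i ∈ Finset.range (8 ^ N - 1), F i =
        F 0 + ∑ i ∈ Finset.Ico 1 (8 ^ N - 1), F i := by
      rw [Finset.range_eq_Ico]
      rw [Finset.sum_eq_sum_Ico_succ_bot (by omega)]
    rw [← e2, ← e1]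
  have hbb : ((8 ^ N - 1 - 1 : ℕ) : ℝ) * (2 * bb N) ≤ 1 := by
    have h2 : ((8 ^ N - 1 - 1 : ℕ) : ℝ) ≤ 8 ^ N := by
      have : 8 ^ N - 1 - 1 ≤ 8 ^ N := by omega
      exact_mod_cast this
    have h3 : (8 : ℝ) ^ N * (2 * bb N) ≤ 1 := by
      unfold bb
      have e : (8 : ℝ) ^ N * (2 * (1 / (32 * ((N : ℝ) + 1) * 8 ^ N))) =
        1 / (16 * ((N : ℝ) + 1)) := by
        field_simp
        norm_num
      rw [e, div_le_one (by positivity)]
      have : (0 : ℝ) ≤ N := Nat.cast_nonneg N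
      linarith
    have h4 := mul_le_mul_of_nonneg_right h2 (by have := bb_pos N; positivity : 0 ≤ 2 * bb N)
    linarith
  rw [hgrid]
  linarith [hFle 0, hFle (8 ^ N - 1)]

theorem not_quasiconvex_Om : ¬ Quasiconvex Om := by
  rintro ⟨K, hK1, hK⟩
  obtain ⟨m, hm⟩ := exists_nat_gt (4 * K + 6)
  have hm0 : 0 < m := by
    have : (0 : ℝ) < m := by linarith
    exact_mod_cast this
  have hm1 : (1 : ℝ) ≤ m := by exact_mod_cast hm0
  set N : ℕ := 6 * m ^ 2 with hNdef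
  have hNr : (N : ℝ) = 6 * m ^ 2 := by rw [hNdef]; push_cast; ring
  have hNK : 2 * K < N := by
    rw [hNr]; nlinarith
  have hN1 : 1 ≤ N := by
    have : (1 : ℝ) ≤ N := by linarith
    exact_mod_cast this
  have h8 : (0 : ℝ) < 8 ^ N := by positivity
  have h8' : (8 : ℝ) ≤ 8 ^ N := by
    calc (8 : ℝ) = 8 ^ 1 := by norm_num
      _ ≤ 8 ^ N := pow_le_pow_right₀ (by norm_num) hN1
  have hi1 : (1 : ℝ) / 8 ^ N ≤ 1 / 8 := by
    apply div_le_div_of_nonneg_left <;> linarith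
  have hi0 : (0 : ℝ) < 1 / 8 ^ N := by positivity
  have hi2 : ((8 : ℝ) ^ N - 1) / 8 ^ N = 1 - 1 / 8 ^ N := by
    field_simp
  set P : E3 := pt (XX N + 1 / 8 ^ N) (zig N (1 / 8 ^ N)) (-N) with hP
  set Q : E3 := pt (XX N + (8 ^ N - 1) / 8 ^ N) (zig N ((8 ^ N - 1) / 8 ^ N)) (-N) with hQ
  have hPp : P ∈ piece N := by
    refine ⟨?_, ?_, ?_, ?_⟩
    · rw [hP, pt_0]; linarith
    · rw [hP, pt_0]; linarith
    · rw [hP, pt_0, pt_1, zig_XX, sub_self, abs_zero]; exact ww_pos _ _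
    · rw [hP, pt_2]; linarith
  have hQp : Q ∈ piece N := by
    refine ⟨?_, ?_, ?_, ?_⟩
    · rw [hQ, pt_0, hi2]; linarith
    · rw [hQ, pt_0, hi2]; linarith
    · rw [hQ, pt_0, pt_1, zig_XX, sub_self, abs_zero]; exact ww_pos _ _
    · rw [hQ, pt_2]; linarith
  have hPQ : dist P Q ≤ 2 := by
    refine (dist_le_sum P Q).trans ?_
    rw [hP, hQ]
    simp only [pt_0, pt_1, pt_2, sub_self, abs_zero, add_zero]
    have h1 : |XX N + 1 / 8 ^ N - (XX N + (8 ^ N - 1) / 8 ^ N)| ≤ 1 := by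
      rw [hi2, abs_le]
      constructor <;> linarith
    have h2 := abs_sub (zig N (1 / 8 ^ N)) (zig N ((8 ^ N - 1) / 8 ^ N))
    have h3 := zig_abs N (1 / 8 ^ N)
    have h4 := zig_abs N ((8 ^ N - 1) / 8 ^ N)
    linarith
  obtain ⟨γ, hc, hΩ, hγ0, hγ1, hlen⟩ := hK P (mem_Om.2 (Or.inr ⟨N, hPp⟩)) Q
    (mem_Om.2 (Or.inr ⟨N, hQp⟩))
  have hlen2 : eVariationOn γ (Icc 0 1) ≤ ENNReal.ofReal (2 * K) := by
    refine hlen.trans (ENNReal.ofReal_le_ofReal ?_)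
    nlinarith
  have h01 : (0 : ℝ) ∈ Icc (0 : ℝ) 1 := ⟨le_rfl, zero_le_one⟩
  -- the curve stays below the half space
  have hneg : ∀ t ∈ Icc (0 : ℝ) 1, γ t 2 < 0 := by
    intro t ht
    have h1 := (eVariationOn.edist_le γ ht h01).trans hlen2
    rw [edist_dist] at h1
    have h2 := (ENNReal.ofReal_le_ofReal_iff (by linarith : (0 : ℝ) ≤ 2 * K)).1 h1
    have h3 := abs_coord_le (γ t) (γ 0) 2
    rw [hγ0, hP, pt_2] at h3
    rw [hγ0, hP] at h2
    have h4 := (abs_le.1 (h3.trans h2)).2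
    linarith
  have hpiece : ∀ t ∈ Icc (0 : ℝ) 1, ∃ M, γ t ∈ piece M := by
    intro t ht
    rcases mem_Om.1 (hΩ t ht) with h | h
    · exact absurd h (not_lt.2 (hneg t ht).le)
    · exact h
  have ha : ContinuousOn (fun t => γ t 0) (Icc 0 1) := by
    have : Continuous (fun z : E3 => z 0) := by fun_prop
    exact this.comp_continuousOn hc
  have hnotint : ∀ t ∈ Icc (0 : ℝ) 1, ∀ k : ℤ, γ t 0 ≠ (k : ℝ) := by
    intro t ht k
    obtain ⟨M, hM⟩ := hpiece t ht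
    exact piece_not_int hM k
  have ha0 : γ 0 0 = XX N + 1 / 8 ^ N := by rw [hγ0, hP, pt_0]
  have hin : ∀ t ∈ Icc (0 : ℝ) 1, γ t ∈ piece N := by
    intro t ht
    have hsub : Icc 0 t ⊆ Icc (0 : ℝ) 1 := Icc_subset_Icc le_rfl ht.2
    have hup : γ t 0 < XX N + 1 := by
      by_contra hcon
      push Not at hcon
      have hivt := intermediate_value_Icc ht.1 (ha.mono hsub)
      obtain ⟨s, hs, hsc⟩ := hivt (show XX N + 1 ∈ Icc (γ 0 0) (γ t 0) from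
        ⟨by rw [ha0]; linarith, hcon⟩)
      apply hnotint s (hsub hs) (2 * ((N : ℤ) + 1) ^ 2 + 1)
      simp only at hsc
      rw [hsc, XX_int]
      push_cast
      ring
    have hlo : XX N < γ t 0 := by
      by_contra hcon
      push Not at hcon
      have hivt := intermediate_value_Icc' ht.1 (ha.mono hsub)
      obtain ⟨s, hs, hsc⟩ := hivt (show XX N ∈ Icc (γ t 0) (γ 0 0) from
        ⟨hcon, by rw [ha0]; linarith⟩)
      apply hnotint s (hsub hs) (2 * ((N : ℤ) + 1) ^ 2)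
      simp only at hsc
      rw [hsc, XX_int]
    obtain ⟨M, hM⟩ := hpiece t ht
    have hMN : M = N := by
      obtain ⟨b1, b2, _, _⟩ := hM
      unfold XX at *
      by_contra hne
      rcases lt_or_gt_of_ne hne with h | h
      · have hMN : (M : ℝ) + 1 ≤ N := by exact_mod_cast h
        have hM0 : (0 : ℝ) ≤ M := Nat.cast_nonneg M
        nlinarith
      · have hMN : (N : ℝ) + 1 ≤ M := by exact_mod_cast h
        have hN0 : (0 : ℝ) ≤ N := Nat.cast_nonneg N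
        nlinarith
    rw [← hMN]
    exact hM
  have ha1 : γ 1 0 = XX N + (8 ^ N - 1) / 8 ^ N := by rw [hγ1, hQ, pt_0]
  have hfin := curve_long hN1 hc hin (fun t ht => (hneg t ht).le) ha0 ha1
    (by linarith : (0 : ℝ) ≤ 2 * K) hlen2
  have hlow := gridVar_large m hm0
  linarith

end

end Pool.Agent.WPI
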